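import Mathlib

/-! Reversal of digits, the exponential sum over the reversed integers and its fourth moment. -/

set_option autoImplicit false

namespace Pool.Agent.R456.RP
open Finset

/-- The reversal of the `L` lowest digits of `n` in base `b`. -/
def rev (b L n : ℕ) : ℕ := ∑ i ∈ range L, (n / b ^ i % b) * b ^ (L - 1 - i)

lemma rev_zero (b n : ℕ) : rev b 0 n = 0 := by simp [rev]

lemma rev_succ (b L : ℕ) (hb : 0 < b) (d n : ℕ) (hd : d < b) (hn : n < b ^ L) :
    rev b (L + 1) (d * b ^ L + n) = b * rev b L n + d := by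
  unfold rev
  rw [sum_range_succ]
  congr 1
  · rw [mul_sum]
    apply sum_congr rfl
    intro i hi
    rw [mem_range] at hi
    have h1 : (d * b ^ L + n) / b ^ i % b = n / b ^ i % b := by
      have h2 : d * b ^ L + n = b ^ i * (d * b ^ (L - i - 1) * b) + n := by
        have : b ^ L = b ^ i * b ^ (L - i - 1) * b := by
          rw [← pow_add, ← pow_succ]; congr 1; omega
        rw [this]; ring
      rw [h2, Nat.mul_add_div (pow_pos hb i), Nat.mul_comm, Nat.add_comm, Nat.add_mul_mod_self_left]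
    rw [h1]
    have h3 : b ^ (L + 1 - 1 - i) = b * b ^ (L - 1 - i) := by
      rw [← pow_succ']; congr 1; omega
    rw [h3]; ring
  · have h1 : (d * b ^ L + n) / b ^ L = d := by
      rw [Nat.mul_comm, Nat.mul_add_div (pow_pos hb L), Nat.div_eq_of_lt hn, Nat.add_zero]
    rw [h1, Nat.mod_eq_of_lt hd]
    simp

lemma rev_lt (b L : ℕ) (hb : 0 < b) : ∀ n < b ^ L, rev b L n < b ^ L := by
  induction L with
  | zero => intro n _; simp [rev_zero]
  | succ L ih =>
    intro n hn
    have hbL : 0 < b ^ L := pow_pos hb L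
    have h1 : n = n / b ^ L * b ^ L + n % b ^ L := by
      rw [Nat.mul_comm]; exact (Nat.div_add_mod n (b ^ L)).symm
    have h2 : n / b ^ L < b := by
      apply Nat.div_lt_of_lt_mul
      rwa [← pow_succ]
    have h3 : n % b ^ L < b ^ L := Nat.mod_lt _ hbL
    rw [h1, rev_succ b L hb _ _ h2 h3]
    have h4 := ih _ h3
    calc b * rev b L (n % b ^ L) + n / b ^ L < b * rev b L (n % b ^ L) + b := by omega
      _ = b * (rev b L (n % b ^ L) + 1) := by ring
      _ ≤ b * b ^ L := Nat.mul_le_mul_left _ h4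
      _ = b ^ (L + 1) := by ring

lemma rev_inj (b L : ℕ) (hb : 0 < b) : ∀ n < b ^ L, ∀ m < b ^ L, rev b L n = rev b L m → n = m := by
  induction L with
  | zero => intro n hn m hm _; simp at hn hm; omega
  | succ L ih =>
    intro n hn m hm h
    have hbL : 0 < b ^ L := pow_pos hb L
    have h1 : n = n / b ^ L * b ^ L + n % b ^ L := by
      rw [Nat.mul_comm]; exact (Nat.div_add_mod n (b ^ L)).symm
    have h1' : m = m / b ^ L * b ^ L + m % b ^ L := by
      rw [Nat.mul_comm]; exact (Nat.div_add_mod m (b ^ L)).symm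
    have h2 : n / b ^ L < b := by
      apply Nat.div_lt_of_lt_mul
      rwa [← pow_succ]
    have h2' : m / b ^ L < b := by
      apply Nat.div_lt_of_lt_mul
      rwa [← pow_succ]
    have h3 : n % b ^ L < b ^ L := Nat.mod_lt _ hbL
    have h3' : m % b ^ L < b ^ L := Nat.mod_lt _ hbL
    rw [h1, h1', rev_succ b L hb _ _ h2 h3, rev_succ b L hb _ _ h2' h3'] at h
    have h4 : n / b ^ L = m / b ^ L := by
      have := congrArg (fun t => t % b) h
      simp only [Nat.mul_add_mod, Nat.mod_eq_of_lt h2, Nat.mod_eq_of_lt h2'] at this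
      exact this
    have h5 : rev b L (n % b ^ L) = rev b L (m % b ^ L) := by
      rw [h4] at h
      exact Nat.eq_of_mul_eq_mul_left hb (by omega)
    have h6 := ih _ h3 _ h3' h5
    rw [h1, h1', h4, h6]

/-- The reversal of two digits. -/
def tau (b T : ℕ) : ℕ := b * (T % b) + T / b

lemma rev_step (b L : ℕ) (hb : 0 < b) (T n : ℕ) (hT : T < b ^ 2) (hn : n < b ^ L) :
    rev b (L + 2) (T * b ^ L + n) = b ^ 2 * rev b L n + tau b T := by
  have h1 : T * b ^ L + n = (T / b) * b ^ (L + 1) + ((T % b) * b ^ L + n) := by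
    conv_lhs => rw [← Nat.div_add_mod T b]
    ring
  have h2 : T / b < b := by
    apply Nat.div_lt_of_lt_mul
    rwa [← sq]
  have h3 : T % b < b := Nat.mod_lt _ hb
  have h4 : (T % b) * b ^ L + n < b ^ (L + 1) := by
    calc (T % b) * b ^ L + n < (T % b) * b ^ L + b ^ L := by omega
      _ = (T % b + 1) * b ^ L := by ring
      _ ≤ b * b ^ L := Nat.mul_le_mul_right _ h3
      _ = b ^ (L + 1) := by ring
  rw [h1, rev_succ b (L + 1) hb _ _ h2 h4, rev_succ b L hb _ _ h3 hn]
  unfold tau
  ring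

lemma tau_lt (b T : ℕ) (hb : 0 < b) (hT : T < b ^ 2) : tau b T < b ^ 2 := by
  have h2 : T / b < b := by
    apply Nat.div_lt_of_lt_mul
    rwa [← sq]
  have h3 : T % b < b := Nat.mod_lt _ hb
  unfold tau
  calc b * (T % b) + T / b < b * (T % b) + b := by omega
    _ = b * (T % b + 1) := by ring
    _ ≤ b * b := Nat.mul_le_mul_left _ h3
    _ = b ^ 2 := by ring

lemma tau_tau (b T : ℕ) (hb : 0 < b) (hT : T < b ^ 2) : tau b (tau b T) = T := by
  have h2 : T / b < b := by
    apply Nat.div_lt_of_lt_mul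
    rwa [← sq]
  unfold tau
  rw [Nat.mul_add_mod, Nat.mod_eq_of_lt h2, Nat.mul_add_div hb, Nat.div_eq_of_lt h2, Nat.add_zero]
  exact Nat.div_add_mod T b

/-- `exp (2 π i x)` -/
noncomputable def e (x : ℝ) : ℂ := Complex.exp (((2 * Real.pi * x : ℝ) : ℂ) * Complex.I)

lemma e_add (x y : ℝ) : e (x + y) = e x * e y := by
  unfold e
  rw [← Complex.exp_add]
  congr 1
  push_cast
  ring

lemma e_zero : e 0 = 1 := by simp [e]

lemma norm_e (x : ℝ) : ‖e x‖ = 1 := by
  unfold e
  exact Complex.norm_exp_ofReal_mul_I _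

lemma e_re (x : ℝ) : (e x).re = Real.cos (2 * Real.pi * x) := by
  unfold e
  exact Complex.exp_ofReal_mul_I_re _

lemma e_int (n : ℤ) : e n = 1 := by
  unfold e
  have : (((2 * Real.pi * (n : ℝ) : ℝ) : ℂ) * Complex.I) = n * (2 * Real.pi * Complex.I) := by
    push_cast; ring
  rw [this]
  exact Complex.exp_int_mul_two_pi_mul_I n

lemma e_nat (n : ℕ) : e n = 1 := by
  have := e_int (n : ℤ)
  push_cast at this
  exact this

lemma e_conj (x : ℝ) : (starRingEnd ℂ) (e x) = e (-x) := by
  unfold e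
  rw [← Complex.exp_conj, map_mul, Complex.conj_ofReal, Complex.conj_I]
  congr 1
  push_cast
  ring

lemma e_add_int (x : ℝ) (n : ℤ) : e (x + n) = e x := by
  rw [e_add, e_int, mul_one]

/-- Orthogonality. -/
lemma sum_e (Q : ℕ) (hQ : 0 < Q) (s : ℤ) :
    ∑ k ∈ range Q, e ((s : ℝ) * (k / Q)) = if (Q : ℤ) ∣ s then (Q : ℂ) else 0 := by
  have hQ0 : (Q : ℝ) ≠ 0 := by positivity
  split_ifs with h
  · obtain ⟨t, rfl⟩ := h
    have : ∀ k ∈ range Q, e ((((Q : ℤ) * t : ℤ) : ℝ) * (k / Q)) = 1 := by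
      intro k _
      have h1 : (((Q : ℤ) * t : ℤ) : ℝ) * (k / Q) = ((t * k : ℤ) : ℝ) := by
        push_cast
        field_simp
      rw [h1, e_int]
    rw [sum_congr rfl this]
    simp
  · have h1 : ∀ k ∈ range Q, e ((s : ℝ) * (k / Q)) = (e ((s : ℝ) / Q)) ^ k := by
      intro k _
      unfold e
      rw [← Complex.exp_nat_mul]
      congr 1
      push_cast
      ring
    rw [sum_congr rfl h1]
    have hne : e ((s : ℝ) / Q) ≠ 1 := by
      intro h2
      unfold e at h2
      rw [Complex.exp_eq_one_iff] at h2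
      obtain ⟨n, hn⟩ := h2
      apply h
      refine ⟨n, ?_⟩
      have h3 : (((2 * Real.pi * ((s : ℝ) / Q) : ℝ) : ℂ) * Complex.I) =
          (2 * Real.pi * Complex.I) * ((s : ℂ) / Q) := by push_cast; ring
      rw [h3] at hn
      have h4 : (2 * Real.pi * Complex.I : ℂ) ≠ 0 := Complex.two_pi_I_ne_zero
      have h5 : ((s : ℂ) / Q) = n := by
        apply mul_left_cancel₀ h4
        rw [hn]; ring
      have h6 : (s : ℂ) = Q * n := by
        have hQc : (Q : ℂ) ≠ 0 := by exact_mod_cast hQ.ne'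
        field_simp at h5
        linear_combination h5
      exact_mod_cast h6
    have h3 : (e ((s : ℝ) / Q)) ^ Q = 1 := by
      unfold e
      rw [← Complex.exp_nat_mul]
      have : (Q : ℂ) * (((2 * Real.pi * ((s : ℝ) / Q) : ℝ) : ℂ) * Complex.I) =
          s * (2 * Real.pi * Complex.I) := by
        push_cast
        have : (Q : ℂ) ≠ 0 := by exact_mod_cast hQ.ne'
        field_simp
      rw [this]
      exact Complex.exp_int_mul_two_pi_mul_I s
    have h4 := geom_sum_mul (e ((s : ℝ) / Q)) Q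
    rw [h3, sub_self] at h4
    rcases mul_eq_zero.1 h4 with h5 | h5
    · exact h5
    · exact absurd (sub_eq_zero.1 h5) hne

end Pool.Agent.R456.RP
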