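import Pool.Agent.R456.RP.Final

/-! The reversed primes form an asymptotic basis. -/

set_option autoImplicit false

namespace Pool.Agent.R456.RP
open Finset
open Pool.Agent.W851.Had
open scoped Pointwise

/-- `r` is the digital reverse in base `b` of a prime -/
def IsRev (b r : ℕ) : Prop := ∃ p : ℕ, p.Prime ∧ r = Nat.ofDigits b (Nat.digits b p).reverse

lemma ofDigits_reverse (b : ℕ) (l : List ℕ) :
    Nat.ofDigits b l.reverse = ∑ i ∈ range l.length, l.getD i 0 * b ^ (l.length - 1 - i) := by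
  induction l with
  | nil => simp
  | cons a l ih =>
    rw [List.reverse_cons, Nat.ofDigits_append, ih, List.length_cons, sum_range_succ',
      List.length_reverse]
    congr 1
    · apply sum_congr rfl
      intro i hi
      rw [mem_range] at hi
      have : l.length + 1 - 1 - (i + 1) = l.length - 1 - i := by omega
      rw [this]
      rfl
    · simp [Nat.ofDigits_singleton, mul_comm]

lemma rev_eq (b L n : ℕ) (hb : 2 ≤ b) (h1 : b ^ (L - 1) ≤ n) (h2 : n < b ^ L) (hL : 1 ≤ L) :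
    Nat.ofDigits b (Nat.digits b n).reverse = rev b L n := by
  have hn : n ≠ 0 := by
    have : 0 < b ^ (L - 1) := by positivity
    omega
  have hlen : (Nat.digits b n).length = L := by
    rw [Nat.length_digits b n (by omega) hn]
    have h3 : Nat.log b n = L - 1 := by
      rw [Nat.log_eq_iff (Or.inr ⟨by omega, hn⟩)]
      refine ⟨h1, ?_⟩
      have : L - 1 + 1 = L := by omega
      rw [this]; exact h2
    omega
  rw [ofDigits_reverse, hlen]
  unfold rev
  apply sum_congr rfl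
  intro i _
  rw [Nat.getD_digits n i hb]

lemma isRev_of_mem (b L p : ℕ) (hb : 2 ≤ b) (hL : 1 ≤ L) (hp : p ∈ Pr b L) :
    IsRev b (rev b L p) := by
  unfold Pr at hp
  rw [mem_filter, mem_Ico] at hp
  exact ⟨p, hp.2, (rev_eq b L p hb hp.1.1 hp.1.2 hL).symm⟩

/-- the set to which the theorem of Schnirelmann is applied -/
def SS (b n : ℕ) : Prop := n = 0 ∨ n = 1 ∨ ∃ r s, IsRev b r ∧ IsRev b s ∧ r + s = n

open Classical in
lemma many_sums (b : ℕ) (hb : 2 ≤ b) : ∃ c : ℝ, 0 < c ∧ ∃ L2 : ℕ, 3 ≤ L2 ∧ ∀ L : ℕ, L2 ≤ L →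
    ∃ L' : ℕ, 1 ≤ L' ∧ L ≤ L' + 2 ∧ L' ≤ L ∧
      c * (b : ℝ) ^ L ≤ (((Pr b L').image (rev b L') + (Pr b L').image (rev b L')).card : ℝ) := by
  have hbr : (2 : ℝ) ≤ b := by exact_mod_cast hb
  have hb0 : (0 : ℝ) < b := by linarith
  have hlb : 0 < Real.log b := Real.log_pos (by linarith)
  obtain ⟨C, hC, L0, hE⟩ := energy b hb
  obtain ⟨L1, hM⟩ := many_primes b hb
  set κ : ℝ := 1 / (6 * Real.log b) with hκ
  have hκ0 : 0 < κ := by positivity
  refine ⟨κ ^ 4 / (C * (b : ℝ) ^ 8), by positivity, max (L0 + 2) (max L1 3), ?_, ?_⟩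
  · exact (le_max_right _ _).trans (le_max_right _ _)
  intro L hL
  have e1 : L0 + 2 ≤ L := (le_max_left _ _).trans hL
  have e2 : L1 ≤ L := ((le_max_left _ _).trans (le_max_right _ _)).trans hL
  have e3 : 3 ≤ L := ((le_max_right _ _).trans (le_max_right _ _)).trans hL
  have h1 := hM L e2
  have hLr : (0 : ℝ) < L := by exact_mod_cast (by omega : 0 < L)
  -- one of the three is large
  have h2 : ∃ L' : ℕ, L ≤ L' + 2 ∧ L' ≤ L ∧ κ * (b : ℝ) ^ L ≤ L * ((Pr b L').card : ℝ) := by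
    by_contra hcon
    push Not at hcon
    have a1 := hcon L (by omega) le_rfl
    have a2 := hcon (L - 1) (by omega) (by omega)
    have a3 := hcon (L - 2) (by omega) (by omega)
    have a4 : (L : ℝ) * (((Pr b L).card : ℝ) + ((Pr b (L - 1)).card : ℝ) +
        ((Pr b (L - 2)).card : ℝ)) < 3 * (κ * (b : ℝ) ^ L) := by linarith
    have a5 := mul_lt_mul_of_pos_left a4 hlb
    have a6 : Real.log b * (3 * (κ * (b : ℝ) ^ L)) = (b : ℝ) ^ L / 2 := by
      rw [hκ]; field_simp; ring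
    rw [a6] at a5
    linarith
  obtain ⟨L', h3, h4, h5⟩ := h2
  refine ⟨L', by omega, h3, h4, ?_⟩
  have hE' := hE L' (by omega)
  set A := (Pr b L').image (rev b L') with hA
  have hAcard : A.card = (Pr b L').card := by
    rw [hA]
    apply card_image_of_injOn
    intro n hn m hm h
    rw [mem_coe] at hn hm
    unfold Pr at hn hm
    rw [mem_filter, mem_Ico] at hn hm
    exact rev_inj b L' (by omega) n hn.1.2 m hm.1.2 h
  have h6 := Finset.le_card_add_mul_addEnergy A A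
  have h7 : ((A.card : ℝ)) ^ 4 ≤ ((A + A).card : ℝ) * ((A.addEnergy A : ℕ) : ℝ) := by
    have : A.card ^ 4 ≤ (A + A).card * A.addEnergy A := by
      calc A.card ^ 4 = A.card ^ 2 * A.card ^ 2 := by ring
        _ ≤ _ := h6
    exact_mod_cast this
  have hL'r : (0 : ℝ) < L' := by exact_mod_cast (by omega : 0 < L')
  have h8 : (κ * (b : ℝ) ^ L) ^ 4 ≤ (L : ℝ) ^ 4 * ((A + A).card : ℝ) * (C * (b : ℝ) ^ (3 * L') / (L' : ℝ) ^ 4) := by
    calc (κ * (b : ℝ) ^ L) ^ 4 ≤ (L * ((Pr b L').card : ℝ)) ^ 4 :=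
          pow_le_pow_left₀ (by positivity) h5 4
      _ = (L : ℝ) ^ 4 * (A.card : ℝ) ^ 4 := by rw [hAcard, mul_pow]
      _ ≤ (L : ℝ) ^ 4 * (((A + A).card : ℝ) * ((A.addEnergy A : ℕ) : ℝ)) :=
          mul_le_mul_of_nonneg_left h7 (by positivity)
      _ ≤ (L : ℝ) ^ 4 * (((A + A).card : ℝ) * (C * (b : ℝ) ^ (3 * L') / (L' : ℝ) ^ 4)) := by
          apply mul_le_mul_of_nonneg_left _ (by positivity)
          apply mul_le_mul_of_nonneg_left _ (Nat.cast_nonneg _)
          rw [le_div_iff₀ (by positivity)]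
          exact hE'
      _ = _ := by ring
  have h9 : (L : ℝ) ^ 4 ≤ 81 * (L' : ℝ) ^ 4 := by
    have : (L : ℝ) ≤ 3 * L' := by
      have : L ≤ 3 * L' := by omega
      exact_mod_cast this
    calc (L : ℝ) ^ 4 ≤ (3 * L') ^ 4 := pow_le_pow_left₀ hLr.le this 4
      _ = _ := by ring
  have h10 : (b : ℝ) ^ (3 * L') ≤ (b : ℝ) ^ (3 * L) :=
    pow_le_pow_right₀ (by linarith) (by omega)
  have h11 : (81 : ℝ) ≤ (b : ℝ) ^ 8 := by
    calc (81 : ℝ) ≤ 2 ^ 8 := by norm_num
      _ ≤ (b : ℝ) ^ 8 := pow_le_pow_left₀ (by norm_num) hbr 8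
  have h12 : (κ * (b : ℝ) ^ L) ^ 4 ≤ (b : ℝ) ^ 8 * C * (b : ℝ) ^ (3 * L) * ((A + A).card : ℝ) := by
    calc (κ * (b : ℝ) ^ L) ^ 4 ≤ _ := h8
      _ ≤ (81 * (L' : ℝ) ^ 4) * ((A + A).card : ℝ) * (C * (b : ℝ) ^ (3 * L) / (L' : ℝ) ^ 4) := by
          gcongr
      _ = 81 * C * (b : ℝ) ^ (3 * L) * ((A + A).card : ℝ) := by
          field_simp
      _ ≤ _ := by gcongr
  have h13 : (κ * (b : ℝ) ^ L) ^ 4 = (b : ℝ) ^ (3 * L) * (κ ^ 4 * (b : ℝ) ^ L) := by
    have : (b : ℝ) ^ (3 * L) = ((b : ℝ) ^ L) ^ 3 := by rw [← pow_mul]; congr 1; ring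
    rw [this]; ring
  rw [h13] at h12
  have h14 : κ ^ 4 * (b : ℝ) ^ L ≤ (b : ℝ) ^ 8 * C * ((A + A).card : ℝ) := by
    have h15 : (0 : ℝ) < (b : ℝ) ^ (3 * L) := by positivity
    apply le_of_mul_le_mul_left _ h15
    calc _ ≤ _ := h12
      _ = _ := by ring
  rw [div_mul_eq_mul_div, div_le_iff₀ (by positivity)]
  calc _ ≤ _ := h14
    _ = _ := by ring

open Classical in
lemma cnt_large (b : ℕ) (hb : 2 ≤ b) : ∃ c : ℝ, 0 < c ∧ ∃ x0 : ℕ, ∀ x : ℕ, x0 ≤ x →
    c * x ≤ cnt (SS b) x := by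
  have hbr : (2 : ℝ) ≤ b := by exact_mod_cast hb
  have hb0 : (0 : ℝ) < b := by linarith
  obtain ⟨c, hc, L2, hL23, h⟩ := many_sums b hb
  refine ⟨c / (2 * b), by positivity, 2 * b ^ L2, ?_⟩
  intro x hx
  set L := Nat.log b (x / 2) with hL
  have hx2 : x / 2 ≠ 0 := by
    have : 0 < b ^ L2 := by positivity
    omega
  have h1 : b ^ L ≤ x / 2 := Nat.pow_log_le_self b hx2
  have h2 : x / 2 < b ^ (L + 1) := Nat.lt_pow_succ_log_self (by omega) _
  have h3 : L2 ≤ L := by
    apply Nat.le_log_of_pow_le (by omega)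
    omega
  obtain ⟨L', e1, e2, e3, h4⟩ := h L h3
  set A := (Pr b L').image (rev b L') with hA
  have h5 : (A + A).card ≤ cnt (SS b) x := by
    unfold cnt
    apply card_le_card
    intro n hn
    rw [mem_add] at hn
    obtain ⟨r, hr, s, hs, rfl⟩ := hn
    rw [hA, mem_image] at hr hs
    obtain ⟨p, hp, rfl⟩ := hr
    obtain ⟨p', hp', rfl⟩ := hs
    have hlt : ∀ q ∈ Pr b L', rev b L' q < b ^ L' ∧ 0 < rev b L' q := by
      intro q hq
      unfold Pr at hq
      rw [mem_filter, mem_Ico] at hq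
      refine ⟨rev_lt b L' (by omega) q hq.1.2, ?_⟩
      by_contra hcon
      have h6 : rev b L' q = rev b L' 0 := by
        have : rev b L' 0 = 0 := by simp [rev]
        omega
      have := rev_inj b L' (by omega) q hq.1.2 0 (by positivity) h6
      have := hq.2.pos
      omega
    have h6 := hlt p hp
    have h7 := hlt p' hp'
    have h8 : b ^ L' ≤ b ^ L := Nat.pow_le_pow_right (by omega) e3
    rw [mem_filter, mem_Icc]
    refine ⟨⟨by omega, by omega⟩, Or.inr (Or.inr ⟨_, _, isRev_of_mem b L' p hb e1 hp,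
      isRev_of_mem b L' p' hb e1 hp', rfl⟩)⟩
  have h6 : (x : ℝ) ≤ 2 * b * (b : ℝ) ^ L := by
    have h7 : x ≤ 2 * b ^ (L + 1) := by omega
    have h8 : (x : ℝ) ≤ 2 * (b : ℝ) ^ (L + 1) := by exact_mod_cast h7
    calc (x : ℝ) ≤ 2 * (b : ℝ) ^ (L + 1) := h8
      _ = _ := by ring
  calc c / (2 * b) * x ≤ c / (2 * b) * (2 * b * (b : ℝ) ^ L) :=
        mul_le_mul_of_nonneg_left h6 (by positivity)
    _ = c * (b : ℝ) ^ L := by field_simp
    _ ≤ ((A + A).card : ℝ) := h4
    _ ≤ _ := by exact_mod_cast h5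

lemma small_two (b : ℕ) (hb : 2 ≤ b) : ∃ l : List ℕ, l.length ≤ 3 ∧ (∀ r ∈ l, IsRev b r) ∧
    l.sum = 2 := by
  by_cases h : b = 2 ∨ b = 3
  · have h1 : IsRev b 1 := by
      rcases h with rfl | rfl
      · exact ⟨2, Nat.prime_two, by simp [Nat.ofDigits]⟩
      · exact ⟨3, Nat.prime_three, by simp [Nat.ofDigits]⟩
    exact ⟨[1, 1], by simp, by simpa using h1, by simp⟩
  · have h4 : 4 ≤ b := by omega
    refine ⟨[2], by simp, ?_, by simp⟩
    intro r hr
    rw [List.mem_singleton] at hr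
    subst hr
    refine ⟨2, Nat.prime_two, ?_⟩
    rw [Nat.digits_of_lt b 2 (by norm_num) (by omega)]
    simp [Nat.ofDigits]

lemma small_three (b : ℕ) (hb : 2 ≤ b) : ∃ l : List ℕ, l.length ≤ 3 ∧ (∀ r ∈ l, IsRev b r) ∧
    l.sum = 3 := by
  by_cases h : b = 2 ∨ b = 3
  · have h1 : IsRev b 1 := by
      rcases h with rfl | rfl
      · exact ⟨2, Nat.prime_two, by simp [Nat.ofDigits]⟩
      · exact ⟨3, Nat.prime_three, by simp [Nat.ofDigits]⟩
    exact ⟨[1, 1, 1], by simp, by simpa using h1, by simp⟩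
  · have h4 : 4 ≤ b := by omega
    refine ⟨[3], by simp, ?_, by simp⟩
    intro r hr
    rw [List.mem_singleton] at hr
    subst hr
    refine ⟨3, Nat.prime_three, ?_⟩
    rw [Nat.digits_of_lt b 3 (by norm_num) (by omega)]
    simp [Nat.ofDigits]

lemma small_all (b : ℕ) (hb : 2 ≤ b) (m : ℕ) (hm : 2 ≤ m) :
    ∃ l : List ℕ, l.length ≤ 3 * m ∧ (∀ r ∈ l, IsRev b r) ∧ l.sum = m := by
  induction m using Nat.strong_induction_on with
  | _ m ih =>
    rcases Nat.lt_or_ge m 4 with h | h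
    · obtain rfl | rfl : m = 2 ∨ m = 3 := by omega
      · obtain ⟨l, h1, h2, h3⟩ := small_two b hb
        exact ⟨l, by omega, h2, h3⟩
      · obtain ⟨l, h1, h2, h3⟩ := small_three b hb
        exact ⟨l, by omega, h2, h3⟩
    · obtain ⟨l, h1, h2, h3⟩ := ih (m - 2) (by omega) (by omega)
      obtain ⟨l', h1', h2', h3'⟩ := small_two b hb
      refine ⟨l ++ l', ?_, ?_, ?_⟩
      · rw [List.length_append]; omega
      · intro r hr
        rw [List.mem_append] at hr
        rcases hr with hr | hr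
        · exact h2 r hr
        · exact h2' r hr
      · rw [List.sum_append]; omega

lemma collect (b : ℕ) (l : List ℕ) (hl : ∀ y ∈ l, SS b y) :
    ∃ (l' : List ℕ) (t : ℕ), t ≤ l.length ∧ l'.length ≤ 2 * l.length ∧ (∀ r ∈ l', IsRev b r) ∧
      l'.sum + t = l.sum := by
  induction l with
  | nil => exact ⟨[], 0, by simp, by simp, by simp, by simp⟩
  | cons a l ih =>
    obtain ⟨l', t, h1, h2, h3, h4⟩ := ih (fun y hy => hl y (List.mem_cons_of_mem _ hy))
    rcases hl a List.mem_cons_self with h | h | ⟨r, s, hr, hs, hrs⟩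
    · refine ⟨l', t, ?_, ?_, h3, ?_⟩
      · rw [List.length_cons]; omega
      · rw [List.length_cons]; omega
      · rw [List.sum_cons]; omega
    · refine ⟨l', t + 1, ?_, ?_, h3, ?_⟩
      · rw [List.length_cons]; omega
      · rw [List.length_cons]; omega
      · rw [List.sum_cons]; omega
    · refine ⟨r :: s :: l', t, ?_, ?_, ?_, ?_⟩
      · rw [List.length_cons]; omega
      · simp only [List.length_cons]; omega
      · intro y hy
        rw [List.mem_cons, List.mem_cons] at hy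
        rcases hy with rfl | rfl | hy
        · exact hr
        · exact hs
        · exact h3 y hy
      · simp only [List.sum_cons]; omega

/-- The reversed primes form an asymptotic basis of finite order. -/
theorem basis (b : ℕ) (hb : 2 ≤ b) : ∃ K N₀ : ℕ, 1 < K ∧ ∀ N : ℕ, N₀ ≤ N →
    ∃ l : List ℕ, l.length ≤ K ∧ (∀ r ∈ l, IsRev b r) ∧ l.sum = N := by
  obtain ⟨c, hc, x0, hx⟩ := cnt_large b hb
  set δ : ℝ := min (min c (1 / ((x0 : ℝ) + 1))) 1 with hδ
  have hδ0 : 0 < δ := by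
    rw [hδ]
    exact lt_min (lt_min hc (by positivity)) zero_lt_one
  have hδ1 : δ ≤ 1 := min_le_right _ _
  have hcnt : ∀ n : ℕ, δ * n ≤ cnt (SS b) n := by
    intro n
    rcases Nat.lt_or_ge n x0 with h | h
    · rcases Nat.eq_zero_or_pos n with h0 | h0
      · subst h0; simp
      · have h1 : 1 ≤ cnt (SS b) n := by
          classical
          unfold cnt
          rw [Nat.one_le_iff_ne_zero, ← Nat.pos_iff_ne_zero, card_pos]
          exact ⟨1, by
            rw [mem_filter, mem_Icc]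
            exact ⟨⟨le_rfl, h0⟩, Or.inr (Or.inl rfl)⟩⟩
        have h2 : δ ≤ 1 / ((x0 : ℝ) + 1) := (min_le_left _ _).trans (min_le_right _ _)
        have h3 : (n : ℝ) ≤ (x0 : ℝ) + 1 := by
          have : (n : ℝ) < x0 := by exact_mod_cast h
          linarith
        calc δ * n ≤ 1 / ((x0 : ℝ) + 1) * ((x0 : ℝ) + 1) := by
              gcongr
          _ = 1 := by field_simp
          _ ≤ _ := by exact_mod_cast h1
    · have h2 : δ ≤ c := (min_le_left _ _).trans (min_le_left _ _)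
      calc δ * n ≤ c * n := mul_le_mul_of_nonneg_right h2 (Nat.cast_nonneg _)
        _ ≤ _ := hx n h
  obtain ⟨h, hh⟩ := exists_nat_ge (1 / δ)
  have hδh : 1 ≤ δ * h := by
    rw [div_le_iff₀ hδ0] at hh
    linarith
  refine ⟨2 * (h + h) + 3 * ((h + h) + 2), 2, by omega, ?_⟩
  intro N hN
  have hS := schn (SS b) (N - 2) h δ hδ1 hδh (Or.inl rfl) (fun n _ => hcnt n) (N - 2) le_rfl
  obtain ⟨l, hl1, hl2, hl3⟩ := hS
  obtain ⟨l', t, h1, h2, h3, h4⟩ := collect b l hl2
  obtain ⟨l'', h5, h6, h7⟩ := small_all b hb (t + 2) (by omega)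
  refine ⟨l' ++ l'', ?_, ?_, ?_⟩
  · rw [List.length_append]; omega
  · intro r hr
    rw [List.mem_append] at hr
    rcases hr with hr | hr
    · exact h3 r hr
    · exact h6 r hr
  · rw [List.sum_append]; omega

end Pool.Agent.R456.RP
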