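import Pool.Agent.R456.RP.Moment

/-! Separated sets: few elements have many digits `0` (or `B - 1`). -/

set_option autoImplicit false

namespace Pool.Agent.R456.RP
open Finset

/-- the sum of the squared distances along the orbit -/
noncomputable def SJ (B J : ℕ) (x : ℝ) : ℝ := ∑ i ∈ range J, dn (x * (B : ℝ) ^ i) ^ 2

lemma SJ_nonneg (B J : ℕ) (x : ℝ) : 0 ≤ SJ B J x := by unfold SJ; positivity

lemma SJ_succ (B J : ℕ) (x : ℝ) : SJ B (J + 1) x = dn x ^ 2 + SJ B J (x * B) := by
  unfold SJ
  rw [sum_range_succ']
  rw [add_comm]
  congr 1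
  · simp
  · apply sum_congr rfl
    intro i _
    have : x * (B : ℝ) ^ (i + 1) = x * B * (B : ℝ) ^ i := by ring
    rw [this]

lemma cell (B : ℕ) (hB : 2 ≤ B) (lam : ℝ) (hl : 0 ≤ lam) (J : ℕ) : ∀ (m : ℤ) (F : Finset ℝ),
    (∀ x ∈ F, (m : ℝ) / 2 ≤ x ∧ x < ((m : ℝ) + 1) / 2) →
    (∀ x ∈ F, ∀ y ∈ F, x ≠ y → 1 / (B : ℝ) ^ J ≤ |x - y|) →
    ∑ x ∈ F, Real.exp (-lam * SJ B J x) ≤
      (1 + B * Real.exp (-lam / (4 * (B : ℝ) ^ 2))) ^ J := by
  induction J with
  | zero =>
    intro m F hF hsep
    have hcard : F.card ≤ 1 := by
      rw [card_le_one]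
      intro x hx y hy
      by_contra hne
      have h1 := hsep x hx y hy hne
      have h2 := hF x hx
      have h3 := hF y hy
      rw [pow_zero, div_one] at h1
      have h4 : |x - y| < 1 := by
        rw [abs_lt]
        constructor <;> linarith
      linarith
    simp only [SJ, range_zero, sum_empty, mul_zero, Real.exp_zero, sum_const, nsmul_eq_mul, mul_one,
      pow_zero]
    exact_mod_cast hcard
  | succ J ih =>
    intro m F hF hsep
    have hBr : (2 : ℝ) ≤ B := by exact_mod_cast hB
    have hB0 : (0 : ℝ) < B := by linarith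
    set ρ : ℝ := 1 + B * Real.exp (-lam / (4 * (B : ℝ) ^ 2)) with hρ
    set η : ℝ := Real.exp (-lam / (4 * (B : ℝ) ^ 2)) with hη
    have hη0 : 0 < η := Real.exp_pos _
    have hρ0 : 0 < ρ := by positivity
    -- the index of the cell
    set jx : ℝ → ℤ := fun x => ⌊2 * x * B⌋ - m * B with hjx
    have hjr : ∀ x ∈ F, jx x ∈ Ico (0 : ℤ) B := by
      intro x hx
      have h1 := hF x hx
      rw [mem_Ico]
      simp only [hjx]
      have h2 : (m * B : ℤ) ≤ ⌊2 * x * B⌋ := by
        rw [Int.le_floor]
        push_cast
        nlinarith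
      have h3 : ⌊2 * x * B⌋ < (m + 1) * B := by
        rw [Int.floor_lt]
        push_cast
        nlinarith
      constructor
      · omega
      · have : (m + 1) * (B : ℤ) = m * B + B := by ring
        omega
    rw [← sum_fiberwise_of_maps_to hjr]
    -- the special cell
    obtain ⟨js, hjs⟩ : ∃ js : ℤ, ∀ x ∈ F, jx x ≠ js → 1 / (2 * (B : ℝ)) ≤ dn x := by
      rcases Int.even_or_odd m with ⟨n, hn⟩ | ⟨n, hn⟩
      · refine ⟨0, ?_⟩
        intro x hx hne
        have h1 := hF x hx
        have h2 := hjr x hx
        rw [mem_Ico] at h2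
        have h3 : (m * B + 1 : ℤ) ≤ ⌊2 * x * B⌋ := by
          simp only [hjx] at h2 hne
          omega
        rw [Int.le_floor] at h3
        push_cast at h3
        have hmn : (m : ℝ) = 2 * n := by rw [hn]; push_cast; ring
        have h4 : (n : ℝ) + 1 / (2 * B) ≤ x := by
          rw [hmn] at h3
          have : 1 / (2 * (B : ℝ)) * (2 * B) = 1 := by field_simp
          by_contra hcon
          push Not at hcon
          have h5 : x * (2 * B) < (n + 1 / (2 * B)) * (2 * B) :=
            mul_lt_mul_of_pos_right hcon (by positivity)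
          rw [add_mul, this] at h5
          linarith
        have h5 : x < n + 1 / 2 := by rw [hmn] at h1; linarith [h1.2]
        have h6 : 1 / (2 * (B : ℝ)) ≤ 1 / 4 := by
          apply one_div_le_one_div_of_le (by norm_num); linarith
        apply le_dn
        intro k
        rcases lt_or_ge k (n + 1) with hk | hk
        · have : (k : ℝ) ≤ n := by exact_mod_cast (by omega : k ≤ n)
          rw [abs_of_nonneg (by linarith [show (0 : ℝ) ≤ 1 / (2 * B) by positivity])]
          linarith
        · have : (n : ℝ) + 1 ≤ k := by exact_mod_cast hk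
          rw [abs_of_neg (by linarith)]
          linarith
      · refine ⟨B - 1, ?_⟩
        intro x hx hne
        have h1 := hF x hx
        have h2 := hjr x hx
        rw [mem_Ico] at h2
        have h3 : ⌊2 * x * B⌋ < m * B + B - 1 := by
          simp only [hjx] at h2 hne
          omega
        rw [Int.floor_lt] at h3
        push_cast at h3
        have hmn : (m : ℝ) = 2 * n + 1 := by rw [hn]; push_cast; ring
        have h4 : x ≤ (n : ℝ) + 1 - 1 / (2 * B) := by
          rw [hmn] at h3
          have : 1 / (2 * (B : ℝ)) * (2 * B) = 1 := by field_simp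
          by_contra hcon
          push Not at hcon
          have h5 : (n + 1 - 1 / (2 * B)) * (2 * B) < x * (2 * B) :=
            mul_lt_mul_of_pos_right hcon (by positivity)
          rw [sub_mul, this] at h5
          nlinarith
        have h5 : (n : ℝ) + 1 / 2 ≤ x := by rw [hmn] at h1; linarith [h1.1]
        have h6 : 1 / (2 * (B : ℝ)) ≤ 1 / 4 := by
          apply one_div_le_one_div_of_le (by norm_num); linarith
        apply le_dn
        intro k
        rcases lt_or_ge k (n + 1) with hk | hk
        · have : (k : ℝ) ≤ n := by exact_mod_cast (by omega : k ≤ n)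
          rw [abs_of_nonneg (by linarith)]
          linarith
        · have : (n : ℝ) + 1 ≤ k := by exact_mod_cast hk
          rw [abs_of_neg (by linarith [show (0 : ℝ) < 1 / (2 * B) by positivity])]
          linarith
    -- the bound in each cell
    have hcell : ∀ j ∈ Ico (0 : ℤ) B, ∑ x ∈ F with jx x = j, Real.exp (-lam * SJ B (J + 1) x) ≤
        (if j = js then 1 else η) * ρ ^ J := by
      intro j _
      set G : Finset ℝ := (F.filter (fun x => jx x = j)).image (fun x : ℝ => x * (B : ℝ)) with hG
      have hinj : Set.InjOn (fun x : ℝ => x * B) (F.filter (fun x => jx x = j)) := by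
        intro x _ y _ hxy
        exact mul_right_cancel₀ hB0.ne' hxy
      have hIH := ih (m * B + j) G (by
        intro y hy
        rw [hG, mem_image] at hy
        obtain ⟨x, hx, rfl⟩ := hy
        rw [mem_filter] at hx
        have h1 : ⌊2 * x * B⌋ = m * B + j := by
          have := hx.2
          simp only [hjx] at this
          omega
        rw [Int.floor_eq_iff] at h1
        push_cast at h1 ⊢
        constructor <;> linarith [h1.1, h1.2]) (by
        intro y hy y' hy' hne
        rw [hG, mem_image] at hy hy'
        obtain ⟨x, hx, rfl⟩ := hy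
        obtain ⟨x', hx', rfl⟩ := hy'
        rw [mem_filter] at hx hx'
        have hxx : x ≠ x' := by rintro rfl; exact hne rfl
        have h1 := hsep x hx.1 x' hx'.1 hxx
        rw [← sub_mul, abs_mul, abs_of_pos hB0]
        calc 1 / (B : ℝ) ^ J = 1 / (B : ℝ) ^ (J + 1) * B := by
              rw [pow_succ]; field_simp
          _ ≤ _ := mul_le_mul_of_nonneg_right h1 hB0.le)
      have hGsum : ∑ y ∈ G, Real.exp (-lam * SJ B J y) =
          ∑ x ∈ F.filter (fun x => jx x = j), Real.exp (-lam * SJ B J (x * B)) := by
        rw [hG, sum_image hinj]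
      rw [hGsum] at hIH
      calc ∑ x ∈ F with jx x = j, Real.exp (-lam * SJ B (J + 1) x) ≤
          ∑ x ∈ F with jx x = j, (if j = js then 1 else η) * Real.exp (-lam * SJ B J (x * B)) := by
            apply sum_le_sum
            intro x hx
            rw [mem_filter] at hx
            rw [SJ_succ, mul_add, Real.exp_add]
            apply mul_le_mul_of_nonneg_right _ (Real.exp_pos _).le
            split_ifs with hj
            · rw [Real.exp_le_one_iff]
              have := sq_nonneg (dn x)
              nlinarith
            · rw [hη, Real.exp_le_exp]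
              have h1 := hjs x hx.1 (by rw [hx.2]; exact hj)
              have h2 : (1 / (2 * (B : ℝ))) ^ 2 ≤ dn x ^ 2 := pow_le_pow_left₀ (by positivity) h1 2
              have h3 : (1 / (2 * (B : ℝ))) ^ 2 = 1 / (4 * (B : ℝ) ^ 2) := by
                rw [div_pow, mul_pow]; norm_num
              rw [h3] at h2
              have h4 := mul_le_mul_of_nonneg_left h2 hl
              have h5 : -lam / (4 * (B : ℝ) ^ 2) = -(lam * (1 / (4 * (B : ℝ) ^ 2))) := by ring
              rw [h5]
              linarith
        _ = (if j = js then 1 else η) * ∑ x ∈ F with jx x = j, Real.exp (-lam * SJ B J (x * B)) := by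
            rw [mul_sum]
        _ ≤ _ := by
            apply mul_le_mul_of_nonneg_left hIH
            split_ifs
            · norm_num
            · exact hη0.le
    refine (sum_le_sum hcell).trans ?_
    rw [← sum_mul, pow_succ, mul_comm]
    apply mul_le_mul_of_nonneg_left _ (by positivity)
    calc ∑ j ∈ Ico (0 : ℤ) B, (if j = js then (1 : ℝ) else η) ≤
        ∑ j ∈ Ico (0 : ℤ) B, ((if j = js then (1 : ℝ) else 0) + η) := by
          apply sum_le_sum
          intro j _
          split_ifs
          · linarith
          · linarith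
      _ = (∑ j ∈ Ico (0 : ℤ) B, (if j = js then (1 : ℝ) else 0)) + B * η := by
          rw [sum_add_distrib]
          congr 1
          rw [sum_const, Int.card_Ico, nsmul_eq_mul]
          simp
      _ ≤ 1 + B * η := by
          apply add_le_add_left
          rw [sum_ite_eq']
          split_ifs <;> norm_num
      _ = ρ := by rw [hρ]

end Pool.Agent.R456.RP
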