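import Pool.Agent.R456.RP.Norm
import Pool.Agent.Helper924.MW.Lower

/-! The error term is small. -/

set_option autoImplicit false

namespace Pool.Agent.R456.RP
open Finset
open Pool.Agent.Helper923.PPS

lemma tt_pow (C : ℕ) (hC : ∀ n : ℕ, n ≠ 0 → (n.divisors.card) ^ 8 ≤ C * n) (r : ℕ) (hr : r ≠ 0) :
    tt r ^ 8 ≤ C * r := by
  unfold tt
  exact_mod_cast hC r hr

/-- the bound for one block -/
lemma block (b : ℕ) (hb : 2 ≤ b) (C I0 : ℕ) (hC1 : 1 ≤ C)
    (hC : ∀ n : ℕ, n ≠ 0 → (n.divisors.card) ^ 8 ≤ C * n) (hI0 : 0 < I0)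
    (hI : (b : ℝ) ^ 2 * Real.exp (-(1 / (2 * (b : ℝ) ^ 10)) * I0) ≤ 0.18) (L t R : ℕ) (ht : 1 ≤ t)
    (htm : t ≤ L / 2 / (2 * I0)) (Q : Finset ℕ)
    (hQ : ∀ r ∈ Q, 2 ≤ r ∧ r ∣ PP (q0 b) R ∧ (b ^ 2) ^ (t - 1) < r ∧ r ≤ (b ^ 2) ^ t) :
    ∑ r ∈ Q, tt r ^ 2 / r * ∑ a ∈ Un r,
      Real.exp (-(4 / (b : ℝ) ^ 6) * SJ (b ^ 2) (L / 2) ((a : ℝ) / r * cc b L)) ≤
    2 * C * (b : ℝ) ^ 2 * Real.exp (2 * (1 / (2 * (b : ℝ) ^ 10))) *
      Real.exp (-Real.sqrt (1 / (2 * (b : ℝ) ^ 10) * Real.log b) * Real.sqrt L) := by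
  have hbr : (2 : ℝ) ≤ b := by exact_mod_cast hb
  have hb0 : (0 : ℝ) < b := by linarith
  set c1 : ℝ := 1 / (2 * (b : ℝ) ^ 10) with hc1
  have hc10 : 0 < c1 := by positivity
  set β : ℝ := Real.sqrt b with hβ
  have hβ0 : 0 < β := Real.sqrt_pos.2 hb0
  have hβ2 : β ^ 2 = b := Real.sq_sqrt hb0.le
  have hβ4 : β ^ 4 = (b : ℝ) ^ 2 := by
    calc β ^ 4 = (β ^ 2) ^ 2 := by ring
      _ = _ := by rw [hβ2]
  set l := L / 2 with hl
  set B := b ^ 2 with hB
  have hB2 : 2 ≤ B := by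
    rw [hB, sq]
    calc 2 ≤ b := hb
      _ = b * 1 := (mul_one b).symm
      _ ≤ b * b := Nat.mul_le_mul_left _ (by omega)
  have hBr : (B : ℝ) = (b : ℝ) ^ 2 := by rw [hB]; push_cast; rfl
  set It : ℕ := l / (2 * t) with hIt
  set Et : ℝ := Real.exp (-(4 / (b : ℝ) ^ 6) * (It : ℕ) / (8 * (B : ℝ) ^ 2)) with hEt
  have hEt' : Et = Real.exp (-(c1 * It)) := by
    rw [hEt, hc1, hBr]
    congr 1
    field_simp
    ring
  have htl : 2 * t ≤ l := by
    have h1 : t * (2 * I0) ≤ l := (Nat.le_div_iff_mul_le (by omega)).1 htm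
    calc 2 * t = t * (2 * 1) := by ring
      _ ≤ t * (2 * I0) := by
          apply Nat.mul_le_mul_left
          omega
      _ ≤ l := h1
  have hItI0 : I0 ≤ It := by
    rw [hIt, Nat.le_div_iff_mul_le (by omega)]
    have h1 : t * (2 * I0) ≤ l := (Nat.le_div_iff_mul_le (by omega)).1 htm
    calc I0 * (2 * t) = t * (2 * I0) := by ring
      _ ≤ l := h1
  -- main_frac
  have hmf := main_frac B t l (cc b L) hB2 ht htl (4 / (b : ℝ) ^ 6) (by positivity) Q (by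
    intro r hr
    obtain ⟨h1, h2, h3, h4⟩ := hQ r hr
    have h5 := coprime_of_dvd_PP h2
    unfold q0 at h5
    have h6 : Nat.Coprime r b := Nat.Coprime.coprime_mul_right_right h5
    have h7 : Nat.Coprime r (b ^ 2 - 1) := Nat.Coprime.coprime_mul_left_right h5
    refine ⟨by omega, h4, ?_, ?_⟩
    · exact Nat.Coprime.pow_left _ h6.symm
    · unfold cc
      exact Nat.Coprime.mul_left h7.symm (Nat.Coprime.pow_left _ h6.symm))
  -- the coefficient
  have hcoef : ∀ r ∈ Q, tt r ^ 2 / r ≤ C * (b : ℝ) ^ 2 * (β ^ (3 * t))⁻¹ := by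
    intro r hr
    obtain ⟨h1, h2, h3, h4⟩ := hQ r hr
    have h5 := tt_pow C hC r (by omega)
    have h6 : (tt r ^ 2) ^ 4 ≤ (C * β ^ t) ^ 4 := by
      have h7 : (r : ℝ) ≤ β ^ (4 * t) := by
        rw [pow_mul, hβ4, ← hBr]
        exact_mod_cast h4
      have h8 : (1 : ℝ) ≤ C := by exact_mod_cast hC1
      calc (tt r ^ 2) ^ 4 = tt r ^ 8 := by ring
        _ ≤ (C : ℝ) * (r : ℝ) := h5
        _ ≤ (C : ℝ) * β ^ (4 * t) := mul_le_mul_of_nonneg_left h7 (by positivity)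
        _ ≤ (C : ℝ) ^ 4 * β ^ (4 * t) := by
            apply mul_le_mul_of_nonneg_right _ (by positivity)
            calc (C : ℝ) = (C : ℝ) ^ 1 := (pow_one _).symm
              _ ≤ (C : ℝ) ^ 4 := pow_le_pow_right₀ h8 (by norm_num)
        _ = (C * β ^ t) ^ 4 := by rw [mul_pow, ← pow_mul, mul_comm t 4]
    have h7 : tt r ^ 2 ≤ C * β ^ t :=
      le_of_pow_le_pow_left₀ (by norm_num) (by positivity) h6
    have hr0 : (0 : ℝ) < r := by exact_mod_cast (by omega : 0 < r)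
    have h8 : β ^ (4 * t) ≤ (b : ℝ) ^ 2 * r := by
      have h9 : ((B ^ (t - 1) : ℕ) : ℝ) ≤ r := by exact_mod_cast h3.le
      have h10 : β ^ (4 * t) = (b : ℝ) ^ 2 * ((B ^ (t - 1) : ℕ) : ℝ) := by
        rw [pow_mul, hβ4]
        push_cast
        rw [hBr]
        obtain ⟨k, rfl⟩ : ∃ k, t = k + 1 := ⟨t - 1, by omega⟩
        rw [Nat.add_sub_cancel, pow_succ]
        ring
      rw [h10]
      exact mul_le_mul_of_nonneg_left h9 (by positivity)
    rw [div_le_iff₀ hr0]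
    calc tt r ^ 2 ≤ C * β ^ t := h7
      _ = C * β ^ (4 * t) * (β ^ (3 * t))⁻¹ := by
          have : β ^ (4 * t) = β ^ t * β ^ (3 * t) := by rw [← pow_add]; congr 1; ring
          rw [this]
          field_simp
      _ ≤ C * ((b : ℝ) ^ 2 * r) * (β ^ (3 * t))⁻¹ := by
          gcongr
      _ = _ := by ring
  -- the bound for the power
  have hpow : (1 + B * Et) ^ (2 * t) ≤ β ^ t := by
    have h1 : Et ≤ Real.exp (-c1 * I0) := by
      rw [hEt', Real.exp_le_exp]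
      have : (I0 : ℝ) ≤ It := by exact_mod_cast hItI0
      nlinarith
    have h2 : (B : ℝ) * Et ≤ 0.18 := by
      refine le_trans ?_ hI
      rw [hBr]
      exact mul_le_mul_of_nonneg_left h1 (by positivity)
    have h3 : (1 + B * Et) ^ 2 ≤ β := by
      have h4 : (1 + B * Et) ^ 2 ≤ (1.18 : ℝ) ^ 2 := by
        apply pow_le_pow_left₀
        · have : 0 ≤ (B : ℝ) * Et := mul_nonneg (Nat.cast_nonneg _) (Real.exp_pos _).le
          linarith
        · linarith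
      have h5 : (1.18 : ℝ) ^ 2 ≤ β := by
        rw [hβ]
        apply Real.le_sqrt_of_sq_le
        norm_num
        linarith
      exact h4.trans h5
    rw [pow_mul]
    exact pow_le_pow_left₀ (by positivity) h3 t
  have hexp : (β ^ (2 * t))⁻¹ * Et ≤ Real.exp (2 * c1) *
      Real.exp (-Real.sqrt (c1 * Real.log b) * Real.sqrt L) := by
    have hlb : 0 < Real.log b := Real.log_pos (by linarith)
    have h1 : (β ^ (2 * t))⁻¹ = Real.exp (-(t * Real.log b)) := by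
      rw [pow_mul, hβ2, Real.exp_neg, ← Real.rpow_natCast, Real.rpow_def_of_pos hb0]
      congr 2
      ring
    rw [h1, hEt', ← Real.exp_add, ← Real.exp_add, Real.exp_le_exp]
    have htr : (1 : ℝ) ≤ t := by exact_mod_cast ht
    have h2 : (L : ℝ) / (4 * t) ≤ It + 2 := by
      have h3 : L ≤ 2 * l + 1 := by omega
      have h4 : l < (It + 1) * (2 * t) := by
        have := Nat.lt_div_mul_add (a := l) (b := 2 * t) (by omega)
        rw [← hIt] at this
        calc l < It * (2 * t) + 2 * t := this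
          _ = (It + 1) * (2 * t) := by ring
      have h5 : L ≤ (It + 2) * (4 * t) := by
        have h6 : (It + 2) * (4 * t) = 2 * ((It + 1) * (2 * t)) + 4 * t := by ring
        omega
      rw [div_le_iff₀ (by positivity)]
      exact_mod_cast h5
    have h3 : c1 * ((L : ℝ) / (4 * t)) ≤ c1 * (It + 2) := mul_le_mul_of_nonneg_left h2 hc10.le
    have h4 : Real.sqrt (c1 * Real.log b) * Real.sqrt L ≤ t * Real.log b + c1 * (L / (4 * t)) := by
      have h5 : Real.sqrt (c1 * Real.log b) * Real.sqrt L = Real.sqrt ((c1 * Real.log b) * L) := by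
        rw [← Real.sqrt_mul (by positivity)]
      rw [h5]
      apply Real.sqrt_le_iff.2
      refine ⟨by positivity, ?_⟩
      have h6 : (t * Real.log b) * (c1 * (L / (4 * t))) * 4 = c1 * Real.log b * L := by
        field_simp
      nlinarith [sq_nonneg (t * Real.log b - c1 * (L / (4 * t)))]
    linarith
  calc ∑ r ∈ Q, tt r ^ 2 / r * ∑ a ∈ Un r,
      Real.exp (-(4 / (b : ℝ) ^ 6) * SJ B l ((a : ℝ) / r * cc b L)) ≤
      ∑ r ∈ Q, C * (b : ℝ) ^ 2 * (β ^ (3 * t))⁻¹ * ∑ a ∈ Un r,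
      Real.exp (-(4 / (b : ℝ) ^ 6) * SJ B l ((a : ℝ) / r * cc b L)) := by
        apply sum_le_sum
        intro r hr
        exact mul_le_mul_of_nonneg_right (hcoef r hr) (sum_nonneg (fun _ _ => (Real.exp_pos _).le))
    _ = C * (b : ℝ) ^ 2 * (β ^ (3 * t))⁻¹ * ∑ r ∈ Q, ∑ a ∈ Un r,
      Real.exp (-(4 / (b : ℝ) ^ 6) * SJ B l ((a : ℝ) / r * cc b L)) := by rw [← mul_sum]
    _ ≤ C * (b : ℝ) ^ 2 * (β ^ (3 * t))⁻¹ * (Et * (2 * (1 + B * Et) ^ (2 * t))) :=
        mul_le_mul_of_nonneg_left hmf (by positivity)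
    _ ≤ C * (b : ℝ) ^ 2 * (β ^ (3 * t))⁻¹ * (Et * (2 * β ^ t)) := by
        have : 0 ≤ Et := (Real.exp_pos _).le
        gcongr
    _ = 2 * C * (b : ℝ) ^ 2 * ((β ^ (2 * t))⁻¹ * Et) := by
        have : β ^ (3 * t) = β ^ (2 * t) * β ^ t := by rw [← pow_add]; congr 1; ring
        rw [this]
        field_simp
    _ ≤ 2 * C * (b : ℝ) ^ 2 * (Real.exp (2 * c1) *
        Real.exp (-Real.sqrt (c1 * Real.log b) * Real.sqrt L)) :=
        mul_le_mul_of_nonneg_left hexp (by positivity)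
    _ = _ := by ring

/-- The bound for the error term. -/
theorem TT_bound (b : ℕ) (hb : 2 ≤ b) : ∃ I0 : ℕ, 0 < I0 ∧ ∃ C c : ℝ, 0 < C ∧ 0 < c ∧ ∀ L : ℕ,
    TT b L (b ^ (L / 2 / (2 * I0))) ≤ C * (1 + L) ^ 5 * Real.exp (-c * Real.sqrt L) := by
  have hbr : (2 : ℝ) ≤ b := by exact_mod_cast hb
  have hb0 : (0 : ℝ) < b := by linarith
  have hlb : 0 < Real.log b := Real.log_pos (by linarith)
  set c1 : ℝ := 1 / (2 * (b : ℝ) ^ 10) with hc1
  have hc10 : 0 < c1 := by positivity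
  obtain ⟨I0, hI0, hI⟩ : ∃ I0 : ℕ, 0 < I0 ∧ (b : ℝ) ^ 2 * Real.exp (-c1 * I0) ≤ 0.18 := by
    have h1 : Filter.Tendsto (fun n : ℕ => (b : ℝ) ^ 2 * Real.exp (-c1 * n)) Filter.atTop
        (nhds ((b : ℝ) ^ 2 * 0)) := by
      apply Filter.Tendsto.const_mul
      apply Real.tendsto_exp_atBot.comp
      apply Filter.Tendsto.const_mul_atTop_of_neg (by linarith)
      exact tendsto_natCast_atTop_atTop
    rw [mul_zero] at h1
    have h2 := (h1.eventually (gt_mem_nhds (by norm_num : (0 : ℝ) < 0.18))).and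
      (Filter.eventually_gt_atTop 0)
    obtain ⟨n, hn⟩ := h2.exists
    exact ⟨n, hn.2, hn.1.le⟩
  obtain ⟨C, hC1, hC⟩ := Pool.Agent.Helper924.MW.Lower.exists_divisor_bound 8 (by norm_num)
  have hC1r : (1 : ℝ) ≤ C := by exact_mod_cast hC1
  refine ⟨I0, hI0, (1 + 2 * Real.log b) ^ 4 * (2 * C * (b : ℝ) ^ 2 * Real.exp (2 * c1)),
    Real.sqrt (c1 * Real.log b), by positivity, Real.sqrt_pos.2 (by positivity), ?_⟩
  intro L
  set tm := L / 2 / (2 * I0) with htm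
  set R := b ^ tm with hR
  set D := R ^ 2 with hD
  have hR1 : 1 ≤ R := Nat.one_le_pow _ _ (by omega)
  have hDB : D = (b ^ 2) ^ tm := by rw [hD, hR, ← pow_mul, ← pow_mul, mul_comm]
  set g : ℝ → ℝ := fun x => Real.exp (-(4 / (b : ℝ) ^ 6) * SJ (b ^ 2) (L / 2) (x * cc b L)) with hg
  have h1 : TT b L R ≤ Hs D ^ 4 * ∑ r ∈ (Icc 2 D).filter (fun r => r ∣ PP (q0 b) R),
        tt r ^ 2 / r * ∑ a ∈ Un r, g ((a : ℝ) / r) :=
    regroup (q0 b) R D hR1 le_rfl g (fun x => (Real.exp_pos _).le)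
  set W := 2 * C * (b : ℝ) ^ 2 * Real.exp (2 * c1) *
      Real.exp (-Real.sqrt (c1 * Real.log b) * Real.sqrt L) with hW
  have hW0 : 0 < W := by positivity
  have hB1 : 1 < b ^ 2 := Nat.one_lt_pow (by norm_num) (by omega)
  have hmaps : ∀ r ∈ (Icc 2 D).filter (fun r => r ∣ PP (q0 b) R), Nat.clog (b ^ 2) r ∈ Icc 1 tm := by
    intro r hr
    rw [mem_filter, mem_Icc] at hr
    rw [mem_Icc]
    constructor
    · exact Nat.clog_pos hB1 hr.1.1
    · rw [Nat.clog_le_iff_le_pow hB1, ← hDB]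
      exact hr.1.2
  have h2 : ∑ r ∈ (Icc 2 D).filter (fun r => r ∣ PP (q0 b) R),
        tt r ^ 2 / r * ∑ a ∈ Un r, g ((a : ℝ) / r) ≤ ∑ t ∈ Icc 1 tm, W := by
    rw [← sum_fiberwise_of_maps_to hmaps]
    apply sum_le_sum
    intro t ht
    rw [mem_Icc] at ht
    apply block b hb C I0 hC1 hC hI0 hI L t R ht.1 ht.2
    intro r hr
    rw [mem_filter, mem_filter, mem_Icc] at hr
    obtain ⟨⟨⟨hr1, hr2⟩, hr3⟩, hr4⟩ := hr
    refine ⟨hr1, hr3, ?_, ?_⟩
    · rw [← hr4]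
      exact Nat.pow_pred_clog_lt_self hB1 (by omega)
    · rw [← hr4]
      exact Nat.le_pow_clog hB1 r
  rw [sum_const, Nat.card_Icc, nsmul_eq_mul, Nat.add_sub_cancel] at h2
  have htmL : (tm : ℝ) ≤ 1 + L := by
    have : tm ≤ L := (Nat.div_le_self _ _).trans (Nat.div_le_self _ _)
    have h3 : (tm : ℝ) ≤ L := by exact_mod_cast this
    linarith
  have hHs : Hs D ≤ (1 + 2 * Real.log b) * (1 + L) := by
    refine (Hs_le D).trans ?_
    have h3 : Real.log D = tm * (2 * Real.log b) := by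
      rw [hDB]; push_cast
      rw [← pow_mul, Real.log_pow]; push_cast; ring
    rw [h3]
    have : (tm : ℝ) * (2 * Real.log b) ≤ (1 + L) * (2 * Real.log b) :=
      mul_le_mul_of_nonneg_right htmL (by positivity)
    have h4 : (0 : ℝ) ≤ L := Nat.cast_nonneg _
    nlinarith
  have h5 : Hs D ^ 4 ≤ ((1 + 2 * Real.log b) * (1 + L)) ^ 4 :=
    pow_le_pow_left₀ (Hs_nonneg D) hHs 4
  calc TT b L R ≤ _ := h1
    _ ≤ ((1 + 2 * Real.log b) * (1 + L)) ^ 4 * ((1 + L) * W) := by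
        apply mul_le_mul h5 _ _ (by positivity)
        · exact h2.trans (mul_le_mul_of_nonneg_right htmL hW0.le)
        · apply sum_nonneg
          intro r _
          exact mul_nonneg (div_nonneg (sq_nonneg _) (Nat.cast_nonneg _))
            (sum_nonneg (fun _ _ => (Real.exp_pos _).le))
    _ = _ := by rw [hW]; ring

end Pool.Agent.R456.RP
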