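import Pool.Agent.R456.RP.Basic

/-! The average of the fourth power of an exponential sum over a fibre. -/

set_option autoImplicit false

namespace Pool.Agent.R456.RP
open Finset

/-- the index set of quadruples -/
def quad (B : ℕ) : Finset ((ℕ × ℕ) × (ℕ × ℕ)) := (range B ×ˢ range B) ×ˢ (range B ×ˢ range B)

lemma norm_pow_four (B : ℕ) (z : ℕ → ℂ) :
    ((‖∑ T ∈ range B, z T‖ ^ 4 : ℝ) : ℂ) = ∑ q ∈ quad B,
      (z q.1.1 * z q.1.2) * ((starRingEnd ℂ) (z q.2.1) * (starRingEnd ℂ) (z q.2.2)) := by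
  set S := ∑ T ∈ range B, z T with hS
  have h1 : ((‖S‖ ^ 4 : ℝ) : ℂ) = (S * S) * ((starRingEnd ℂ) S * (starRingEnd ℂ) S) := by
    have h2 : S * (starRingEnd ℂ) S = ((‖S‖ ^ 2 : ℝ) : ℂ) := by
      rw [Complex.mul_conj, Complex.normSq_eq_norm_sq]
    calc ((‖S‖ ^ 4 : ℝ) : ℂ) = ((‖S‖ ^ 2 : ℝ) : ℂ) * ((‖S‖ ^ 2 : ℝ) : ℂ) := by
          push_cast; ring
      _ = _ := by rw [← h2]; ring
  rw [h1]
  unfold quad
  rw [sum_product]
  have h3 : S * S = ∑ p ∈ range B ×ˢ range B, z p.1 * z p.2 := by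
    rw [sum_product, hS, sum_mul_sum]
  have h4 : (starRingEnd ℂ) S * (starRingEnd ℂ) S = ∑ p ∈ range B ×ˢ range B,
      (starRingEnd ℂ) (z p.1) * (starRingEnd ℂ) (z p.2) := by
    rw [sum_product, hS, map_sum, sum_mul_sum]
  rw [h3, h4, sum_mul_sum]

/-- the difference attached to a quadruple -/
def sg (t : ℕ → ℕ) (q : (ℕ × ℕ) × (ℕ × ℕ)) : ℤ := t q.1.1 + t q.1.2 - t q.2.1 - t q.2.2

/-- the phase attached to a quadruple -/
def ph (f : ℕ → ℝ) (q : (ℕ × ℕ) × (ℕ × ℕ)) : ℝ := f q.1.1 + f q.1.2 - f q.2.1 - f q.2.2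

lemma quad_card (B : ℕ) (hB : 0 < B) (t : ℕ → ℕ) (ht : ∀ T < B, t T < B)
    (hinj : ∀ T < B, ∀ T' < B, t T = t T' → T = T') :
    ((quad B).filter (fun q => (B : ℤ) ∣ sg t q)).card ≤ B ^ 3 := by
  have h : ((quad B).filter (fun q => (B : ℤ) ∣ sg t q)).card ≤
      (range B ×ˢ (range B ×ˢ range B)).card := by
    apply card_le_card_of_injOn (fun q => (q.1.2, q.2))
    · intro q hq
      simp only [quad, coe_filter, mem_product, mem_range, Set.mem_ofPred_eq] at hq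
      simp only [coe_product, Set.mem_prod, mem_coe, mem_range]
      tauto
    · rintro ⟨⟨a, b⟩, c⟩ hq ⟨⟨a', b'⟩, c'⟩ hq' h
      rw [mem_coe, mem_filter] at hq hq'
      simp only [quad, mem_product, mem_range, sg] at hq hq'
      simp only [Prod.mk.injEq] at h
      obtain ⟨rfl, rfl⟩ := h
      have h1 := dvd_sub hq.2 hq'.2
      have h2 : ((t a : ℤ) + t b - t c.1 - t c.2) - ((t a' : ℤ) + t b - t c.1 - t c.2) =
          (t a : ℤ) - t a' := by ring
      rw [h2] at h1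
      have h3 : t a = t a' := by
        have h4 := ht a hq.1.1.1
        have h5 := ht a' hq'.1.1.1
        have h6 := Int.eq_zero_of_abs_lt_dvd h1 (by rw [abs_lt]; omega)
        omega
      have := hinj a hq.1.1.1 a' hq'.1.1.1 h3
      rw [this]
  rw [card_product, card_product, card_range] at h
  calc _ ≤ B * (B * B) := h
    _ = B ^ 3 := by ring

/-- the average over the fibre as a sum of cosines -/
lemma fiber_eq (B : ℕ) (hB : 0 < B) (t : ℕ → ℕ) (f : ℕ → ℝ) (β : ℝ) :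
    (1 / (B : ℝ)) * ∑ j ∈ range B, ‖∑ T ∈ range B, e ((β + j) / B * t T + f T)‖ ^ 4 =
    ∑ q ∈ (quad B).filter (fun q => (B : ℤ) ∣ sg t q),
      Real.cos (2 * Real.pi * (β / B * sg t q + ph f q)) := by
  have hB0 : (B : ℝ) ≠ 0 := by positivity
  have hBc : (B : ℂ) ≠ 0 := by exact_mod_cast hB.ne'
  have h1 : ∀ j ∈ range B, ((‖∑ T ∈ range B, e ((β + j) / B * t T + f T)‖ ^ 4 : ℝ) : ℂ) =
      ∑ q ∈ quad B, e (β / B * sg t q + ph f q) * e ((sg t q : ℝ) * (j / B)) := by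
    intro j _
    rw [norm_pow_four]
    apply sum_congr rfl
    intro q _
    rw [e_conj, e_conj, ← e_add, ← e_add, ← e_add, ← e_add]
    congr 1
    unfold sg ph
    push_cast
    field_simp
    ring
  have h2 : (((1 / (B : ℝ)) * ∑ j ∈ range B,
      ‖∑ T ∈ range B, e ((β + j) / B * t T + f T)‖ ^ 4 : ℝ) : ℂ) =
      ∑ q ∈ (quad B).filter (fun q => (B : ℤ) ∣ sg t q), e (β / B * sg t q + ph f q) := by
    rw [Complex.ofReal_mul, Complex.ofReal_sum, sum_congr rfl h1, sum_comm, mul_sum, sum_filter]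
    apply sum_congr rfl
    intro q _
    rw [← mul_sum, sum_e B hB]
    split_ifs
    · push_cast
      field_simp
    · simp
  have h3 := congrArg Complex.re h2
  rw [Complex.ofReal_re, Complex.re_sum] at h3
  rw [h3]
  apply sum_congr rfl
  intro q _
  rw [e_re]

/-- the bound for the average over the fibre -/
lemma fiber_le (B : ℕ) (hB : 0 < B) (t : ℕ → ℕ) (f : ℕ → ℝ) (ht : ∀ T < B, t T < B)
    (hinj : ∀ T < B, ∀ T' < B, t T = t T' → T = T') (T₁ T₂ T₃ T₄ : ℕ) (h₁ : T₁ < B) (h₂ : T₂ < B)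
    (h₃ : T₃ < B) (h₄ : T₄ < B) (hne : T₁ ≠ T₃) (hsum : t T₁ + t T₂ = t T₃ + t T₄) (β : ℝ) :
    (1 / (B : ℝ)) * ∑ j ∈ range B, ‖∑ T ∈ range B, e ((β + j) / B * t T + f T)‖ ^ 4 ≤
      (B : ℝ) ^ 3 - 2 * (1 - Real.cos (2 * Real.pi * (f T₁ + f T₂ - f T₃ - f T₄))) := by
  rw [fiber_eq B hB]
  set Z := (quad B).filter (fun q => (B : ℤ) ∣ sg t q) with hZ
  set q1 : (ℕ × ℕ) × (ℕ × ℕ) := ((T₁, T₂), (T₃, T₄)) with hq1
  set q2 : (ℕ × ℕ) × (ℕ × ℕ) := ((T₃, T₄), (T₁, T₂)) with hq2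
  have hs1 : sg t q1 = 0 := by simp only [sg, hq1]; omega
  have hs2 : sg t q2 = 0 := by simp only [sg, hq2]; omega
  have hm1 : q1 ∈ Z := by
    rw [hZ, mem_filter, hs1]
    refine ⟨?_, dvd_zero _⟩
    simp only [quad, hq1, mem_product, mem_range]
    exact ⟨⟨h₁, h₂⟩, h₃, h₄⟩
  have hm2 : q2 ∈ Z := by
    rw [hZ, mem_filter, hs2]
    refine ⟨?_, dvd_zero _⟩
    simp only [quad, hq2, mem_product, mem_range]
    exact ⟨⟨h₃, h₄⟩, h₁, h₂⟩
  have hq12 : q2 ∈ Z.erase q1 := by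
    rw [mem_erase]
    refine ⟨?_, hm2⟩
    intro h
    simp only [hq1, hq2, Prod.mk.injEq] at h
    exact hne h.1.1.symm
  rw [← add_sum_erase Z _ hm1, ← add_sum_erase (Z.erase q1) _ hq12]
  have h5 : ∑ q ∈ (Z.erase q1).erase q2, Real.cos (2 * Real.pi * (β / B * sg t q + ph f q)) ≤
      ((Z.erase q1).erase q2).card := by
    calc _ ≤ ∑ q ∈ (Z.erase q1).erase q2, (1 : ℝ) := sum_le_sum (fun q _ => Real.cos_le_one _)
      _ = _ := by simp
  have h6 : (((Z.erase q1).erase q2).card : ℝ) = (Z.card : ℝ) - 2 := by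
    have h7 := card_erase_add_one hq12
    have h8 := card_erase_add_one hm1
    have h9 : ((Z.erase q1).erase q2).card + 2 = Z.card := by omega
    rw [← h9]; push_cast; ring
  have h7 : (Z.card : ℝ) ≤ (B : ℝ) ^ 3 := by exact_mod_cast quad_card B hB t ht hinj
  have h8 : Real.cos (2 * Real.pi * (β / B * sg t q2 + ph f q2)) =
      Real.cos (2 * Real.pi * (β / B * sg t q1 + ph f q1)) := by
    rw [← Real.cos_neg, hs1, hs2]
    congr 1
    simp only [ph, hq1, hq2, Int.cast_zero, mul_zero, zero_add]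
    ring
  have h9 : Real.cos (2 * Real.pi * (β / B * sg t q1 + ph f q1)) =
      Real.cos (2 * Real.pi * (f T₁ + f T₂ - f T₃ - f T₄)) := by
    congr 1
    rw [hs1]
    simp only [ph, hq1, Int.cast_zero, mul_zero, zero_add]
  rw [h8, h9]
  linarith

end Pool.Agent.R456.RP
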