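import Pool.Agent.R456.RP.Est
import Pool.Agent.W851.Had.Schn

/-! Sums of two reversed primes have positive lower density, and the theorem of Schnirelmann. -/

set_option autoImplicit false

namespace Pool.Agent.R456.RP
open Finset
open Pool.Agent.Helper923.PPS

/-- the primes with exactly `L` digits -/
def Pr (b L : ℕ) : Finset ℕ := (Ico (b ^ (L - 1)) (b ^ L)).filter Nat.Prime

open Classical in
/-- the additive energy of the reversed primes -/
theorem energy (b : ℕ) (hb : 2 ≤ b) : ∃ C : ℝ, 0 < C ∧ ∃ L0 : ℕ, ∀ L : ℕ, L0 ≤ L →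
    ((((Pr b L).image (rev b L)).addEnergy ((Pr b L).image (rev b L)) : ℕ) : ℝ) * (L : ℝ) ^ 4 ≤
      C * (b : ℝ) ^ (3 * L) := by
  have hbr : (2 : ℝ) ≤ b := by exact_mod_cast hb
  have hb0 : (0 : ℝ) < b := by linarith
  have hlb : 0 < Real.log b := Real.log_pos (by linarith)
  obtain ⟨I0, hI0, C, c, hC, hc, hTT⟩ := TT_bound b hb
  have hq : 0 < q0 b := by
    unfold q0
    apply Nat.mul_pos (by omega)
    have : 2 ^ 2 ≤ b ^ 2 := Nat.pow_le_pow_left hb 2
    omega
  have hq1 : (1 : ℝ) ≤ q0 b := by exact_mod_cast hq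
  have hI0r : (0 : ℝ) < I0 := by exact_mod_cast hI0
  -- the error term
  have hlim : Filter.Tendsto (fun L : ℕ => (C * (1 + (L : ℝ)) ^ 5 * Real.exp (-c * Real.sqrt L)) * L)
      Filter.atTop (nhds 0) := by
    have h1 : Filter.Tendsto (fun y : ℝ => y ^ 12 * Real.exp (-y)) Filter.atTop (nhds 0) :=
      Real.tendsto_pow_mul_exp_neg_atTop_nhds_zero 12
    have h2 : Filter.Tendsto (fun L : ℕ => c * Real.sqrt L) Filter.atTop Filter.atTop := by
      apply Filter.Tendsto.const_mul_atTop hc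
      exact Real.tendsto_sqrt_atTop.comp tendsto_natCast_atTop_atTop
    have h3 := (h1.comp h2).const_mul (C * 32 / c ^ 12)
    rw [mul_zero] at h3
    refine squeeze_zero' (Filter.Eventually.of_forall fun L => by positivity) ?_ h3
    filter_upwards [Filter.eventually_ge_atTop 1] with L hL
    have hL1 : (1 : ℝ) ≤ L := by exact_mod_cast hL
    simp only [Function.comp]
    have h4 : (c * Real.sqrt L) ^ 12 = c ^ 12 * (L : ℝ) ^ 6 := by
      rw [mul_pow]
      congr 1
      calc Real.sqrt L ^ 12 = (Real.sqrt L ^ 2) ^ 6 := by ring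
        _ = _ := by rw [Real.sq_sqrt (by positivity)]
    rw [h4]
    have h5 : (1 + (L : ℝ)) ^ 5 ≤ 32 * (L : ℝ) ^ 5 := by
      calc (1 + (L : ℝ)) ^ 5 ≤ (2 * L) ^ 5 := pow_le_pow_left₀ (by positivity) (by linarith) 5
        _ = _ := by ring
    have h6 : C * 32 / c ^ 12 * (c ^ 12 * (L : ℝ) ^ 6 * Real.exp (-(c * Real.sqrt L))) =
        C * (32 * (L : ℝ) ^ 5) * Real.exp (-c * Real.sqrt L) * L := by
      rw [neg_mul]
      field_simp
    rw [h6]
    gcongr
  have hev1 := hlim.eventually (gt_mem_nhds (by norm_num : (0 : ℝ) < 1))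
  -- the main term
  have hev2 : ∀ᶠ L : ℕ in Filter.atTop,
      (L : ℝ) * (Real.log b / (8 * I0)) ≤ Real.log (((b ^ (L / 2 / (2 * I0)) : ℕ) : ℝ) / q0 b) := by
    have h1 : Filter.Tendsto (fun L : ℕ => (L : ℝ) * (Real.log b / (8 * I0))) Filter.atTop
        Filter.atTop := by
      apply Filter.Tendsto.atTop_mul_const (by positivity)
      exact tendsto_natCast_atTop_atTop
    filter_upwards [h1.eventually_ge_atTop (2 * Real.log b + Real.log (q0 b))] with L hL
    set tm := L / 2 / (2 * I0) with htm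
    have h2 : (L : ℝ) / (4 * I0) - 2 ≤ tm := by
      have h3 : L ≤ 2 * (L / 2) + 1 := by omega
      have h4 : L / 2 < (tm + 1) * (2 * I0) := by
        have := Nat.lt_div_mul_add (a := L / 2) (b := 2 * I0) (by omega)
        rw [← htm] at this
        calc L / 2 < tm * (2 * I0) + 2 * I0 := this
          _ = (tm + 1) * (2 * I0) := by ring
      have h5 : L ≤ (tm + 2) * (4 * I0) := by
        have h6 : (tm + 2) * (4 * I0) = 2 * ((tm + 1) * (2 * I0)) + 4 * I0 := by ring
        omega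
      have h7 : (L : ℝ) / (4 * I0) ≤ tm + 2 := by
        rw [div_le_iff₀ (by positivity)]
        exact_mod_cast h5
      linarith
    rw [Real.log_div (by positivity) (by positivity)]
    push_cast
    rw [Real.log_pow]
    have h3 := mul_le_mul_of_nonneg_right h2 hlb.le
    have h4 : (L : ℝ) / (4 * I0) * Real.log b = 2 * (L * (Real.log b / (8 * I0))) := by
      field_simp; ring
    rw [sub_mul, h4] at h3
    linarith
  obtain ⟨L0, hL0⟩ := Filter.eventually_atTop.1 (hev1.and (hev2.and (Filter.eventually_ge_atTop 2)))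
  set c2 : ℝ := Real.log b / (16 * I0 * q0 b) with hc2
  have hc20 : 0 < c2 := by positivity
  refine ⟨(b : ℝ) ^ 4 * (c2⁻¹ + 1) ^ 4, by positivity, L0, ?_⟩
  intro L hL
  obtain ⟨hT1, hM, hL2⟩ := hL0 L hL
  set tm := L / 2 / (2 * I0) with htm
  set R := b ^ tm with hR
  have hR1 : 1 ≤ R := Nat.one_le_pow _ _ (by omega)
  have hLr : (0 : ℝ) < L := by exact_mod_cast (by omega : 0 < L)
  have hE := energy_bound b L R hb hR1 (Pr b L) (by
    intro n hn
    unfold Pr at hn
    rw [mem_filter, mem_Ico] at hn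
    rw [mem_range]
    exact hn.1.2) (by
    intro n hn
    unfold Pr at hn
    rw [mem_filter, mem_Ico] at hn
    rw [Nat.coprime_comm, hn.2.coprime_iff_not_dvd, prime_dvd_PP hn.2]
    rintro ⟨h1, h2⟩
    have h3 : tm ≤ L - 1 := by
      have : L / 2 ≤ L - 1 := by omega
      exact (Nat.div_le_self _ _).trans this
    have h4 : R ≤ b ^ (L - 1) := Nat.pow_le_pow_right (by omega) h3
    have h5 : n = b ^ (L - 1) := by omega
    have h6 : (b ^ (L - 1)).Prime := h5 ▸ hn.2
    have h7 : L - 1 = 1 := by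
      by_contra hne
      exact Nat.Prime.not_prime_pow' hne h6
    have h8 : L = 2 := by omega
    subst h8
    have h9 : n = b := by simpa using h5
    apply h2
    rw [h9]
    unfold q0
    exact dvd_mul_right _ _)
  have hsel := selS_log (q0 b) R hq hR1
  have hS : c2 * L ≤ selS (apSieve 0 (q0 b) 0 R) R := by
    refine le_trans ?_ hsel
    rw [le_div_iff₀ (by positivity)]
    calc c2 * L * (2 * q0 b) = L * (Real.log b / (8 * I0)) := by
          rw [hc2]; field_simp; ring
      _ ≤ _ := hM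
  have hS' : (selS (apSieve 0 (q0 b) 0 R) R)⁻¹ ≤ c2⁻¹ * (L : ℝ)⁻¹ := by
    rw [← mul_inv]
    exact inv_anti₀ (by positivity) hS
  have hT' : TT b L R ≤ (L : ℝ)⁻¹ := by
    have h1 : TT b L R * L ≤ 1 :=
      (mul_le_mul_of_nonneg_right (hTT L) hLr.le).trans hT1.le
    rwa [← le_div_iff₀ hLr, one_div] at h1
  have h1 : (selS (apSieve 0 (q0 b) 0 R) R)⁻¹ + TT b L R ≤ (c2⁻¹ + 1) * (L : ℝ)⁻¹ := by
    calc _ ≤ c2⁻¹ * (L : ℝ)⁻¹ + (L : ℝ)⁻¹ := add_le_add hS' hT'
      _ = _ := by ring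
  have h0 : 0 ≤ (selS (apSieve 0 (q0 b) 0 R) R)⁻¹ + TT b L R := by
    have := selS_pos (apSieve 0 (q0 b) 0 R) R (by exact_mod_cast hR1)
    have := TT_nonneg b L R
    positivity
  have h2 := pow_le_pow_left₀ h0 h1 4
  calc ((((Pr b L).image (rev b L)).addEnergy ((Pr b L).image (rev b L)) : ℕ) : ℝ) * (L : ℝ) ^ 4 ≤
      ((b : ℝ) ^ 4 * (b : ℝ) ^ (3 * L) * ((c2⁻¹ + 1) * (L : ℝ)⁻¹) ^ 4) * (L : ℝ) ^ 4 := by
        apply mul_le_mul_of_nonneg_right _ (by positivity)
        exact hE.trans (mul_le_mul_of_nonneg_left h2 (by positivity))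
    _ = _ := by
        rw [mul_pow]
        field_simp

/-- many primes with `L`, `L - 1` or `L - 2` digits -/
lemma many_primes (b : ℕ) (hb : 2 ≤ b) : ∃ L1 : ℕ, ∀ L : ℕ, L1 ≤ L →
    (b : ℝ) ^ L / 2 ≤ L * Real.log b *
      (((Pr b L).card : ℝ) + ((Pr b (L - 1)).card : ℝ) + ((Pr b (L - 2)).card : ℝ)) := by
  have hbr : (2 : ℝ) ≤ b := by exact_mod_cast hb
  have hb0 : (0 : ℝ) < b := by linarith
  have hlb : 0 < Real.log b := Real.log_pos (by linarith)
  have hlim : ∀ᶠ x : ℝ in Filter.atTop, Real.log (x + 1) + 2 * Real.sqrt x * Real.log x ≤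
      (1 / 100) * x := by
    have h1 : (fun x : ℝ => Real.log x) =o[Filter.atTop] (fun x : ℝ => x ^ (1 / 4 : ℝ)) :=
      isLittleO_log_rpow_atTop (by norm_num)
    have h2 := h1.bound (show (0 : ℝ) < 1 by norm_num)
    have h3 : Filter.Tendsto (fun x : ℝ => x ^ (1 / 4 : ℝ)) Filter.atTop Filter.atTop :=
      tendsto_rpow_atTop (by norm_num)
    filter_upwards [h2, h3.eventually_ge_atTop 1000, Filter.eventually_ge_atTop 1,
      (Filter.tendsto_atTop_add_const_right Filter.atTop (1 : ℝ) Filter.tendsto_id).eventually h2]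
      with x hx1 hx2 hx3 hx4
    have hx0 : 0 < x := by linarith
    set y := x ^ (1 / 4 : ℝ) with hy
    have hy4 : y ^ 4 = x := by
      rw [hy, ← Real.rpow_natCast, ← Real.rpow_mul hx0.le]; norm_num
    have hsq : Real.sqrt x = y ^ 2 := by
      rw [← hy4, show y ^ 4 = (y ^ 2) ^ 2 by ring, Real.sqrt_sq (by positivity)]
    have hlog : Real.log x ≤ y := by
      rw [one_mul, Real.norm_eq_abs, Real.norm_eq_abs, abs_of_nonneg (Real.log_nonneg hx3),
        abs_of_nonneg (by positivity)] at hx1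
      exact hx1
    have hlog2 : Real.log (x + 1) ≤ 2 * y := by
      have h5 : Real.log (x + 1) ≤ (x + 1) ^ (1 / 4 : ℝ) := by
        simp only [id] at hx4
        rw [one_mul, Real.norm_eq_abs, Real.norm_eq_abs,
          abs_of_nonneg (Real.log_nonneg (by linarith)), abs_of_nonneg (by positivity)] at hx4
        exact hx4
      refine h5.trans ?_
      calc (x + 1) ^ (1 / 4 : ℝ) ≤ (16 * x) ^ (1 / 4 : ℝ) :=
            Real.rpow_le_rpow (by linarith) (by linarith) (by norm_num)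
        _ = 2 * y := by
            rw [Real.mul_rpow (by norm_num) hx0.le]
            congr 1
            rw [show (16 : ℝ) = 2 ^ (4 : ℝ) by norm_num, ← Real.rpow_mul (by norm_num)]
            norm_num
    rw [hsq]
    have hy0 : 0 < y := by linarith
    calc Real.log (x + 1) + 2 * y ^ 2 * Real.log x ≤ 2 * y + 2 * y ^ 2 * y := by
          gcongr
      _ ≤ (1 / 100) * y ^ 4 := by
          have h6 : 1000 * y ^ 3 ≤ y ^ 4 := by
            calc 1000 * y ^ 3 ≤ y * y ^ 3 := by gcongr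
              _ = y ^ 4 := by ring
          have h7 : y ≤ y ^ 3 := by
            have : 1 ≤ y ^ 2 := by nlinarith
            nlinarith
          nlinarith
      _ = (1 / 100) * x := by rw [hy4]
  have hlim2 : Filter.Tendsto (fun L : ℕ => (b : ℝ) ^ L) Filter.atTop Filter.atTop :=
    tendsto_pow_atTop_atTop_of_one_lt (by linarith)
  obtain ⟨L1, hL1⟩ := Filter.eventually_atTop.1 (hlim2.eventually hlim)
  refine ⟨max L1 4, ?_⟩
  intro L hL
  have hLL1 := (le_max_left _ _).trans hL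
  have hL4 : 4 ≤ L := (le_max_right _ _).trans hL
  have h1 := hL1 L hLL1
  have h2 := Chebyshev.theta_ge (b ^ L)
  have h3 := Chebyshev.theta_le_log4_mul_x (x := ((b ^ (L - 3) : ℕ) : ℝ)) (by positivity)
  push_cast at h2
  set X : ℝ := (b : ℝ) ^ L with hX
  have hX0 : 0 < X := by positivity
  have h4 : ((b ^ (L - 3) : ℕ) : ℝ) ≤ X / 8 := by
    push_cast
    rw [le_div_iff₀ (by norm_num), hX]
    calc (b : ℝ) ^ (L - 3) * 8 = (b : ℝ) ^ (L - 3) * 2 ^ 3 := by norm_num
      _ ≤ (b : ℝ) ^ (L - 3) * b ^ 3 := by gcongr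
      _ = (b : ℝ) ^ L := by rw [← pow_add]; congr 1; omega
  have hl2 := Real.log_two_gt_d9
  have hl2' := Real.log_two_lt_d9
  have hl4 : Real.log 4 = 2 * Real.log 2 := by
    rw [show (4 : ℝ) = 2 ^ 2 by norm_num, Real.log_pow]; norm_num
  have h5 : X / 2 ≤ Chebyshev.theta X - Chebyshev.theta ((b ^ (L - 3) : ℕ) : ℝ) := by
    have h6 : Real.log 4 * ((b ^ (L - 3) : ℕ) : ℝ) ≤ Real.log 4 * (X / 8) :=
      mul_le_mul_of_nonneg_left h4 (by rw [hl4]; linarith)
    rw [hl4] at h6 h3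
    have h7 : X * Real.log 2 - 2 * Real.log 2 * (X / 8) ≥ 0.51 * X := by nlinarith
    linarith
  refine h5.trans ?_
  -- theta difference
  have hsub : Chebyshev.theta X - Chebyshev.theta ((b ^ (L - 3) : ℕ) : ℝ) ≤
      ∑ p ∈ Pr b L ∪ (Pr b (L - 1) ∪ Pr b (L - 2)), Real.log p := by
    have e1 : Chebyshev.theta X = ∑ p ∈ (Ioc 0 (b ^ L)).filter Nat.Prime, Real.log p := by
      have : X = ((b ^ L : ℕ) : ℝ) := by rw [hX]; push_cast; rfl
      rw [this]
      unfold Chebyshev.theta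
      rw [Nat.floor_natCast]
    have e2 : Chebyshev.theta ((b ^ (L - 3) : ℕ) : ℝ) =
        ∑ p ∈ (Ioc 0 (b ^ (L - 3))).filter Nat.Prime, Real.log p := by
      unfold Chebyshev.theta
      rw [Nat.floor_natCast]
    rw [e1, e2, sub_le_iff_le_add', ← sum_union_inter]
    have hnn : ∀ p : ℕ, 0 ≤ Real.log p := fun p => Real.log_natCast_nonneg p
    have h6 : ∑ p ∈ (Ioc 0 (b ^ L)).filter Nat.Prime, Real.log p ≤
        ∑ p ∈ (Ioc 0 (b ^ (L - 3))).filter Nat.Prime ∪
          (Pr b L ∪ (Pr b (L - 1) ∪ Pr b (L - 2))), Real.log p := by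
      apply sum_le_sum_of_subset_of_nonneg
      · intro p hp
        rw [mem_filter, mem_Ioc] at hp
        have hpL : p ≠ b ^ L := by
          rintro rfl
          exact Nat.Prime.not_prime_pow (by omega) hp.2
        simp only [mem_union, mem_filter, mem_Ioc, Pr, mem_Ico]
        have e3 : L - 1 - 1 = L - 2 := by omega
        have e4 : L - 2 - 1 = L - 3 := by omega
        rw [e3, e4]
        by_cases h7 : b ^ (L - 1) ≤ p
        · right; left; exact ⟨⟨h7, by omega⟩, hp.2⟩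
        · by_cases h8 : b ^ (L - 2) ≤ p
          · right; right; left; exact ⟨⟨h8, by omega⟩, hp.2⟩
          · by_cases h9 : b ^ (L - 3) ≤ p
            · right; right; right; exact ⟨⟨h9, by omega⟩, hp.2⟩
            · left; exact ⟨⟨hp.1.1, by omega⟩, hp.2⟩
      · intro p _ _; exact hnn p
    have h7 : 0 ≤ ∑ p ∈ (Ioc 0 (b ^ (L - 3))).filter Nat.Prime ∩
          (Pr b L ∪ (Pr b (L - 1) ∪ Pr b (L - 2))), Real.log p := sum_nonneg (fun p _ => hnn p)
    linarith
  refine hsub.trans ?_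
  have hlog : ∀ p ∈ Pr b L ∪ (Pr b (L - 1) ∪ Pr b (L - 2)), Real.log p ≤ L * Real.log b := by
    intro p hp
    have hpL : p < b ^ L ∧ 0 < p := by
      simp only [mem_union, mem_filter, Pr, mem_Ico] at hp
      have e1 : b ^ (L - 1) ≤ b ^ L := Nat.pow_le_pow_right (by omega) (by omega)
      have e2 : b ^ (L - 2) ≤ b ^ L := Nat.pow_le_pow_right (by omega) (by omega)
      rcases hp with h | h | h
      · exact ⟨h.1.2, h.2.pos⟩
      · exact ⟨by omega, h.2.pos⟩
      · exact ⟨by omega, h.2.pos⟩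
    rw [← Real.log_pow]
    apply Real.log_le_log (by exact_mod_cast hpL.2)
    exact_mod_cast hpL.1.le
  calc ∑ p ∈ Pr b L ∪ (Pr b (L - 1) ∪ Pr b (L - 2)), Real.log p ≤
      ∑ p ∈ Pr b L ∪ (Pr b (L - 1) ∪ Pr b (L - 2)), L * Real.log b := sum_le_sum hlog
    _ = ((Pr b L ∪ (Pr b (L - 1) ∪ Pr b (L - 2))).card : ℝ) * (L * Real.log b) := by
        rw [sum_const, nsmul_eq_mul]
    _ ≤ (((Pr b L).card : ℝ) + ((Pr b (L - 1)).card : ℝ) + ((Pr b (L - 2)).card : ℝ)) *
        (L * Real.log b) := by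
        apply mul_le_mul_of_nonneg_right _ (by positivity)
        have e1 := card_union_le (Pr b L) (Pr b (L - 1) ∪ Pr b (L - 2))
        have e2 := card_union_le (Pr b (L - 1)) (Pr b (L - 2))
        have e3 : (Pr b L ∪ (Pr b (L - 1) ∪ Pr b (L - 2))).card ≤
            (Pr b L).card + (Pr b (L - 1)).card + (Pr b (L - 2)).card := by omega
        exact_mod_cast e3
    _ = _ := by ring

end Pool.Agent.R456.RP
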