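import Pool.Agent.R456.RP.Cell

/-! Sums over the reduced fractions. -/

set_option autoImplicit false

namespace Pool.Agent.R456.RP
open Finset

/-- the reduced residues modulo `q` -/
def Un (q : ℕ) : Finset ℕ := (range q).filter (fun a => Nat.Coprime a q)

lemma perm (q c : ℕ) (hq : 0 < q) (hc : Nat.Coprime c q) (f : ℝ → ℝ)
    (hf : ∀ (x : ℝ) (n : ℕ), f (x + n) = f x) :
    ∑ a ∈ Un q, f ((a : ℝ) / q * c) = ∑ a ∈ Un q, f ((a : ℝ) / q) := by
  have hmaps : Set.MapsTo (fun a : ℕ => a * c % q) (Un q) (Un q) := by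
    intro a ha
    simp only [Un, coe_filter, mem_range, Set.mem_ofPred_eq] at ha ⊢
    refine ⟨Nat.mod_lt _ hq, ?_⟩
    have h1 : Nat.Coprime (a * c) q := Nat.Coprime.mul_left ha.2 hc
    rw [Nat.coprime_iff_gcd_eq_one, ← Nat.gcd_rec, Nat.gcd_comm]
    exact h1
  have hinj : Set.InjOn (fun a : ℕ => a * c % q) (Un q) := by
    intro a ha a' ha' h
    simp only [Un, coe_filter, mem_range, Set.mem_ofPred_eq] at ha ha' h
    have h1 : a * c ≡ a' * c [MOD q] := h
    have h2 : a ≡ a' [MOD q] := Nat.ModEq.cancel_right_of_coprime (by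
      rw [Nat.gcd_comm]; exact hc) h1
    have h3 := Nat.ModEq.eq_of_lt_of_lt h2 ha.1 ha'.1
    exact h3
  refine sum_nbij (fun a : ℕ => a * c % q) (fun a ha => hmaps ha) hinj
    (surjOn_of_injOn_of_card_le _ hmaps hinj le_rfl) ?_
  intro a _
  have hq0 : (q : ℝ) ≠ 0 := by positivity
  have h1 : (a : ℝ) / q * c = ((a * c % q : ℕ) : ℝ) / q + ((a * c / q : ℕ) : ℝ) := by
    have h2 : ((a * c : ℕ) : ℝ) = ((q * (a * c / q) + a * c % q : ℕ) : ℝ) := by
      rw [Nat.div_add_mod]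
    push_cast at h2 ⊢
    field_simp
    linarith
  rw [h1, hf]

lemma SJ_periodic (B J : ℕ) (x : ℝ) (n : ℕ) : SJ B J (x + n) = SJ B J x := by
  unfold SJ
  apply sum_congr rfl
  intro i _
  have : (x + n) * (B : ℝ) ^ i = x * (B : ℝ) ^ i + ((n * B ^ i : ℕ) : ℤ) := by
    push_cast; ring
  rw [this, dn_add_int]

lemma dn_mul (B : ℕ) (hB : 2 ≤ B) (y : ℝ) (h : dn y < 1 / (2 * (B : ℝ))) :
    dn (y * B) = dn y * B := by
  have hBr : (2 : ℝ) ≤ B := by exact_mod_cast hB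
  have hB0 : (0 : ℝ) < B := by linarith
  set t := y - round y with ht
  have h1 : dn y = |t| := rfl
  have h2 : |t * B| < 1 / 2 := by
    rw [abs_mul, abs_of_pos hB0]
    rw [h1, lt_div_iff₀ (by positivity)] at h
    linarith
  have h3 : y * B = t * B + ((round y * B : ℤ) : ℝ) := by
    push_cast; rw [ht]; ring
  have h4 : dn (y * B) = dn (t * B) := by rw [h3, dn_add_int]
  rw [h4, h1]
  have h5 : round (t * B) = 0 := by
    rw [round_eq_zero_iff]
    rw [abs_lt] at h2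
    constructor <;> linarith [h2.1, h2.2]
  unfold dn
  rw [h5]
  simp [abs_mul, abs_of_pos hB0]

/-- in a window of length `t` the orbit of a fraction with denominator at most `B ^ t` is once
far from the integers -/
lemma window (B t J : ℕ) (hB : 2 ≤ B) (htJ : t ≤ J) (y : ℝ) (hy : 1 / (B : ℝ) ^ t ≤ dn y) :
    1 / (4 * (B : ℝ) ^ 2) ≤ SJ B J y := by
  have hBr : (2 : ℝ) ≤ B := by exact_mod_cast hB
  have hB0 : (0 : ℝ) < B := by linarith
  have hex : ∃ i < t, 1 / (2 * (B : ℝ)) ≤ dn (y * (B : ℝ) ^ i) := by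
    by_contra hcon
    push Not at hcon
    have hind : ∀ i ≤ t, dn (y * (B : ℝ) ^ i) = dn y * (B : ℝ) ^ i := by
      intro i
      induction i with
      | zero => intro _; simp
      | succ i ih =>
        intro hi
        have h1 := ih (by omega)
        have h2 := hcon i (by omega)
        have h3 := dn_mul B hB _ h2
        rw [pow_succ, ← mul_assoc, h3, h1]
        ring
    have h1 := hind t le_rfl
    have h2 := dn_le_half (y * (B : ℝ) ^ t)
    have h3 : 1 ≤ dn y * (B : ℝ) ^ t := by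
      rwa [div_le_iff₀ (by positivity)] at hy
    linarith
  obtain ⟨i, hi, h⟩ := hex
  have h1 : dn (y * (B : ℝ) ^ i) ^ 2 ≤ SJ B J y := by
    unfold SJ
    exact single_le_sum (f := fun i => dn (y * (B : ℝ) ^ i) ^ 2) (fun _ _ => sq_nonneg _)
      (mem_range.2 (by omega))
  refine le_trans ?_ h1
  calc 1 / (4 * (B : ℝ) ^ 2) = (1 / (2 * (B : ℝ))) ^ 2 := by
        rw [div_pow, mul_pow]; norm_num
    _ ≤ _ := pow_le_pow_left₀ (by positivity) h 2

lemma dn_frac (n q : ℕ) (hq : 0 < q) (h : ¬ q ∣ n) : 1 / (q : ℝ) ≤ dn ((n : ℝ) / q) := by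
  have hq0 : (0 : ℝ) < q := by positivity
  apply le_dn
  intro k
  have h1 : (n : ℝ) / q - k = (((n : ℤ) - k * q : ℤ) : ℝ) / q := by
    push_cast; field_simp
  rw [h1, abs_div, abs_of_pos hq0]
  apply div_le_div_of_nonneg_right _ hq0.le
  have h2 : (n : ℤ) - k * q ≠ 0 := by
    intro h3
    apply h
    have : (q : ℤ) ∣ (n : ℤ) := ⟨k, by linarith⟩
    exact_mod_cast this
  have h3 : (1 : ℤ) ≤ |(n : ℤ) - k * q| := Int.one_le_abs h2
  exact_mod_cast h3

/-- the set of pairs `(q, a)` -/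
def pairs (Q : Finset ℕ) : Finset (Σ _ : ℕ, ℕ) := Q.sigma (fun q => Un q)

lemma frac_sum (B t : ℕ) (hB : 2 ≤ B) (lam : ℝ) (hl : 0 ≤ lam) (Q : Finset ℕ)
    (hQ : ∀ q ∈ Q, 1 < q ∧ q ≤ B ^ t) :
    ∑ q ∈ Q, ∑ a ∈ Un q, Real.exp (-lam * SJ B (2 * t) ((a : ℝ) / q)) ≤
      2 * (1 + B * Real.exp (-lam / (4 * (B : ℝ) ^ 2))) ^ (2 * t) := by
  classical
  have hBr : (2 : ℝ) ≤ B := by exact_mod_cast hB
  have hB0 : (0 : ℝ) < B := by linarith
  rw [sum_sigma' Q (fun q => Un q) (fun q a => Real.exp (-lam * SJ B (2 * t) ((a : ℝ) / q)))]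
  set P := Q.sigma (fun q => Un q) with hP
  have hmem : ∀ p ∈ P, 1 < p.1 ∧ p.1 ≤ B ^ t ∧ p.2 < p.1 ∧ Nat.Coprime p.2 p.1 := by
    intro p hp
    rw [hP, mem_sigma] at hp
    obtain ⟨h1, h2⟩ := hp
    simp only [Un, mem_filter, mem_range] at h2
    exact ⟨(hQ _ h1).1, (hQ _ h1).2, h2.1, h2.2⟩
  have hcross : ∀ p ∈ P, ∀ p' ∈ P, ((p.2 * p'.1 : ℕ) : ℤ) - ((p'.2 * p.1 : ℕ) : ℤ) = 0 →
      p = p' := by
    intro p hp p' hp' h
    obtain ⟨h1, _, h3, h4⟩ := hmem p hp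
    obtain ⟨h1', _, h3', h4'⟩ := hmem p' hp'
    have h5 : p.2 * p'.1 = p'.2 * p.1 := by
      have := sub_eq_zero.1 h
      exact_mod_cast this
    have h6 : p.1 ∣ p'.1 := by
      have : p.1 ∣ p.2 * p'.1 := by rw [h5]; exact dvd_mul_left _ _
      exact Nat.Coprime.dvd_of_dvd_mul_left h4.symm this
    have h7 : p'.1 ∣ p.1 := by
      have : p'.1 ∣ p'.2 * p.1 := by rw [← h5]; exact dvd_mul_left _ _
      exact Nat.Coprime.dvd_of_dvd_mul_left h4'.symm this
    have h8 : p.1 = p'.1 := Nat.dvd_antisymm h6 h7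
    have h9 : p.2 = p'.2 := by
      rw [h8] at h5
      exact Nat.eq_of_mul_eq_mul_right (by omega) h5
    rcases p with ⟨u, v⟩
    rcases p' with ⟨u', v'⟩
    simp only at h8 h9
    subst h8 h9
    rfl
  have hsepP : ∀ p ∈ P, ∀ p' ∈ P, p ≠ p' →
      1 / (B : ℝ) ^ (2 * t) ≤ |(p.2 : ℝ) / p.1 - (p'.2 : ℝ) / p'.1| := by
    intro p hp p' hp' hne
    obtain ⟨h1, h2, _, _⟩ := hmem p hp
    obtain ⟨h1', h2', _, _⟩ := hmem p' hp'
    have hz : ((p.2 * p'.1 : ℕ) : ℤ) - ((p'.2 * p.1 : ℕ) : ℤ) ≠ 0 := fun h => hne (hcross p hp p' hp' h)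
    have hq : (0 : ℝ) < p.1 := by exact_mod_cast (by omega : 0 < p.1)
    have hq' : (0 : ℝ) < p'.1 := by exact_mod_cast (by omega : 0 < p'.1)
    have h3 : (p.2 : ℝ) / p.1 - (p'.2 : ℝ) / p'.1 =
        ((((p.2 * p'.1 : ℕ) : ℤ) - ((p'.2 * p.1 : ℕ) : ℤ) : ℤ) : ℝ) / (p.1 * p'.1) := by
      push_cast
      field_simp
    rw [h3, abs_div, abs_of_pos (mul_pos hq hq')]
    have h4 : (1 : ℝ) ≤ |((((p.2 * p'.1 : ℕ) : ℤ) - ((p'.2 * p.1 : ℕ) : ℤ) : ℤ) : ℝ)| := by
      exact_mod_cast Int.one_le_abs hz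
    have h5 : (p.1 : ℝ) * p'.1 ≤ (B : ℝ) ^ (2 * t) := by
      have h6 : (p.1 : ℝ) ≤ (B : ℝ) ^ t := by exact_mod_cast h2
      have h7 : (p'.1 : ℝ) ≤ (B : ℝ) ^ t := by exact_mod_cast h2'
      calc (p.1 : ℝ) * p'.1 ≤ (B : ℝ) ^ t * (B : ℝ) ^ t := mul_le_mul h6 h7 hq'.le (by positivity)
        _ = (B : ℝ) ^ (2 * t) := by rw [← pow_add]; congr 1; ring
    exact div_le_div₀ (by positivity) h4 (mul_pos hq hq') h5
  have hinj : Set.InjOn (fun p : (Σ _ : ℕ, ℕ) => (p.2 : ℝ) / p.1) P := by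
    intro p hp p' hp' h
    by_contra hne
    have h1 := hsepP p hp p' hp' hne
    simp only at h
    rw [h, sub_self, abs_zero] at h1
    have : (0 : ℝ) < 1 / (B : ℝ) ^ (2 * t) := by positivity
    linarith
  set F : Finset ℝ := P.image (fun p : (Σ _ : ℕ, ℕ) => (p.2 : ℝ) / p.1) with hF
  have hsumF : ∑ p ∈ P, Real.exp (-lam * SJ B (2 * t) ((p.2 : ℝ) / p.1)) =
      ∑ x ∈ F, Real.exp (-lam * SJ B (2 * t) x) := by
    rw [hF, sum_image hinj]
  have hF01 : ∀ x ∈ F, 0 ≤ x ∧ x < 1 := by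
    intro x hx
    rw [hF, mem_image] at hx
    obtain ⟨p, hp, rfl⟩ := hx
    obtain ⟨h1, _, h3, _⟩ := hmem p hp
    have hq : (0 : ℝ) < p.1 := by exact_mod_cast (by omega : 0 < p.1)
    constructor
    · positivity
    · rw [div_lt_one hq]
      exact_mod_cast h3
  have hFsep : ∀ x ∈ F, ∀ y ∈ F, x ≠ y → 1 / (B : ℝ) ^ (2 * t) ≤ |x - y| := by
    intro x hx y hy hne
    rw [hF, mem_image] at hx hy
    obtain ⟨p, hp, rfl⟩ := hx
    obtain ⟨p', hp', rfl⟩ := hy
    exact hsepP p hp p' hp' (by rintro rfl; exact hne rfl)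
  rw [hsumF, ← sum_filter_add_sum_filter_not F (fun x => x < 1 / 2)]
  have h1 := cell B hB lam hl (2 * t) 0 (F.filter (fun x => x < 1 / 2)) (by
    intro x hx
    rw [mem_filter] at hx
    have := hF01 x hx.1
    push_cast
    constructor <;> linarith [hx.2]) (by
    intro x hx y hy
    rw [mem_filter] at hx hy
    exact hFsep x hx.1 y hy.1)
  have h2 := cell B hB lam hl (2 * t) 1 (F.filter (fun x => ¬ x < 1 / 2)) (by
    intro x hx
    rw [mem_filter] at hx
    have := hF01 x hx.1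
    push_cast
    constructor <;> linarith [hx.2]) (by
    intro x hx y hy
    rw [mem_filter] at hx hy
    exact hFsep x hx.1 y hy.1)
  linarith

/-- the main estimate for the sum over the fractions with denominators at most `B ^ t` -/
theorem main_frac (B t l c : ℕ) (hB : 2 ≤ B) (ht : 1 ≤ t) (htl : 2 * t ≤ l) (κ : ℝ) (hκ : 0 ≤ κ)
    (Q : Finset ℕ) (hQ : ∀ q ∈ Q, 1 < q ∧ q ≤ B ^ t ∧ Nat.Coprime B q ∧ Nat.Coprime c q) :
    ∑ q ∈ Q, ∑ a ∈ Un q, Real.exp (-κ * SJ B l ((a : ℝ) / q * c)) ≤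
      Real.exp (-κ * (l / (2 * t) : ℕ) / (8 * (B : ℝ) ^ 2)) *
        (2 * (1 + B * Real.exp (-κ * (l / (2 * t) : ℕ) / (8 * (B : ℝ) ^ 2))) ^ (2 * t)) := by
  have hBr : (2 : ℝ) ≤ B := by exact_mod_cast hB
  have hB0 : (0 : ℝ) < B := by linarith
  set I : ℕ := l / (2 * t) with hI
  have hI1 : 1 ≤ I := by
    rw [hI]
    exact (Nat.one_le_div_iff (by omega)).2 htl
  have hIr : (0 : ℝ) < I := by exact_mod_cast hI1
  have hIl : I * (2 * t) ≤ l := Nat.div_mul_le_self _ _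
  set lam : ℝ := κ * I / 2 with hlam
  have hlam0 : 0 ≤ lam := by positivity
  set E0 : ℝ := Real.exp (-κ * (I : ℕ) / (8 * (B : ℝ) ^ 2)) with hE0
  have hlamE : Real.exp (-lam / (4 * (B : ℝ) ^ 2)) = E0 := by
    rw [hE0]
    congr 1
    rw [hlam]
    field_simp
    ring
  -- pointwise bound
  have hpt : ∀ q ∈ Q, ∀ a ∈ Un q, Real.exp (-κ * SJ B l ((a : ℝ) / q * c)) ≤
      E0 * (1 / I * ∑ w ∈ range I,
        Real.exp (-lam * SJ B (2 * t) ((a : ℝ) / q * ((c * B ^ (w * (2 * t)) : ℕ) : ℝ)))) := by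
    intro q hq a ha
    obtain ⟨hq1, hq2, hq3, hq4⟩ := hQ q hq
    simp only [Un, mem_filter, mem_range] at ha
    set S : ℕ → ℝ := fun w => SJ B (2 * t) ((a : ℝ) / q * ((c * B ^ (w * (2 * t)) : ℕ) : ℝ)) with hS
    have h1 : ∑ w ∈ range I, S w ≤ SJ B l ((a : ℝ) / q * c) := by
      have h2 : ∑ w ∈ range I, S w =
          ∑ i ∈ range (I * (2 * t)), dn ((a : ℝ) / q * c * (B : ℝ) ^ i) ^ 2 := by
        rw [sum_range_mul']
        apply sum_congr rfl
        intro w _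
        simp only [hS, SJ]
        apply sum_congr rfl
        intro i _
        congr 2
        push_cast
        ring
      rw [h2]
      unfold SJ
      apply sum_le_sum_of_subset_of_nonneg
      · exact range_subset_range.2 hIl
      · intros; positivity
    have h3 : ∀ w, 1 / (4 * (B : ℝ) ^ 2) ≤ S w := by
      intro w
      apply window B t (2 * t) hB (by omega)
      have h4 : (a : ℝ) / q * ((c * B ^ (w * (2 * t)) : ℕ) : ℝ) =
          ((a * (c * B ^ (w * (2 * t))) : ℕ) : ℝ) / q := by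
        push_cast; ring
      rw [h4]
      have h5 : ¬ q ∣ a * (c * B ^ (w * (2 * t))) := by
        intro hd
        have h6 : Nat.Coprime q (a * (c * B ^ (w * (2 * t)))) := by
          apply Nat.Coprime.mul_right ha.2.symm
          apply Nat.Coprime.mul_right hq4.symm
          exact Nat.Coprime.pow_right _ hq3.symm
        have h7 := Nat.Coprime.eq_one_of_dvd h6 hd
        omega
      refine le_trans ?_ (dn_frac _ q (by omega) h5)
      apply one_div_le_one_div_of_le (by exact_mod_cast (by omega : 0 < q))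
      exact_mod_cast hq2
    have h4 : Real.exp (-(κ / 2) * ∑ w ∈ range I, S w) ≤ E0 := by
      rw [hE0, Real.exp_le_exp]
      have h5 : (I : ℝ) * (1 / (4 * (B : ℝ) ^ 2)) ≤ ∑ w ∈ range I, S w := by
        calc (I : ℝ) * (1 / (4 * (B : ℝ) ^ 2)) = ∑ w ∈ range I, 1 / (4 * (B : ℝ) ^ 2) := by
              rw [sum_const, card_range, nsmul_eq_mul]
          _ ≤ _ := sum_le_sum (fun w _ => h3 w)
      have h6 := mul_le_mul_of_nonneg_left h5 (show 0 ≤ κ / 2 by positivity)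
      have h7 : -κ * (I : ℝ) / (8 * (B : ℝ) ^ 2) =
          -(κ / 2 * ((I : ℝ) * (1 / (4 * (B : ℝ) ^ 2)))) := by
        field_simp; ring
      rw [h7]
      linarith
    have h5 : Real.exp (-(κ / 2) * ∑ w ∈ range I, S w) ≤
        1 / I * ∑ w ∈ range I, Real.exp (-lam * S w) := by
      have h6 := convexOn_exp.map_sum_le (t := range I) (w := fun _ => 1 / (I : ℝ))
        (p := fun w => -lam * S w) (fun _ _ => by positivity) (by
          rw [sum_const, card_range, nsmul_eq_mul]; field_simp) (fun _ _ => Set.mem_univ _)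
      simp only [smul_eq_mul] at h6
      rw [← mul_sum, ← mul_sum, ← mul_sum] at h6
      have h7 : 1 / (I : ℝ) * (-lam * ∑ w ∈ range I, S w) = -(κ / 2) * ∑ w ∈ range I, S w := by
        rw [hlam]; field_simp
      rwa [h7] at h6
    calc Real.exp (-κ * SJ B l ((a : ℝ) / q * c)) ≤ Real.exp (-κ * ∑ w ∈ range I, S w) := by
          rw [Real.exp_le_exp]
          have := mul_le_mul_of_nonneg_left h1 hκ
          linarith
      _ = Real.exp (-(κ / 2) * ∑ w ∈ range I, S w) * Real.exp (-(κ / 2) * ∑ w ∈ range I, S w) := by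
          rw [← Real.exp_add]; congr 1; ring
      _ ≤ E0 * (1 / I * ∑ w ∈ range I, Real.exp (-lam * S w)) :=
          mul_le_mul h4 h5 (Real.exp_pos _).le (Real.exp_pos _).le
  calc ∑ q ∈ Q, ∑ a ∈ Un q, Real.exp (-κ * SJ B l ((a : ℝ) / q * c)) ≤
      ∑ q ∈ Q, ∑ a ∈ Un q, E0 * (1 / I * ∑ w ∈ range I,
        Real.exp (-lam * SJ B (2 * t) ((a : ℝ) / q * ((c * B ^ (w * (2 * t)) : ℕ) : ℝ)))) :=
        sum_le_sum (fun q hq => sum_le_sum (fun a ha => hpt q hq a ha))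
    _ = E0 * (1 / I * ∑ w ∈ range I, ∑ q ∈ Q, ∑ a ∈ Un q,
        Real.exp (-lam * SJ B (2 * t) ((a : ℝ) / q * ((c * B ^ (w * (2 * t)) : ℕ) : ℝ)))) := by
        rw [sum_comm (s := range I)]
        simp_rw [mul_sum]
        apply sum_congr rfl
        intro q _
        rw [sum_comm]
    _ = E0 * (1 / I * ∑ w ∈ range I, ∑ q ∈ Q, ∑ a ∈ Un q,
        Real.exp (-lam * SJ B (2 * t) ((a : ℝ) / q))) := by
        congr 2
        apply sum_congr rfl
        intro w _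
        apply sum_congr rfl
        intro q hq
        obtain ⟨hq1, hq2, hq3, hq4⟩ := hQ q hq
        exact perm q (c * B ^ (w * (2 * t))) (by omega)
          (Nat.Coprime.mul_left hq4 (Nat.Coprime.pow_left _ hq3))
          (fun x => Real.exp (-lam * SJ B (2 * t) x)) (fun x n => by
            simp only [SJ_periodic])
    _ = E0 * ∑ q ∈ Q, ∑ a ∈ Un q, Real.exp (-lam * SJ B (2 * t) ((a : ℝ) / q)) := by
        rw [sum_const, card_range, nsmul_eq_mul]
        generalize ∑ q ∈ Q, ∑ a ∈ Un q, Real.exp (-lam * SJ B (2 * t) ((a : ℝ) / q)) = W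
        rw [← mul_assoc (1 / (I : ℝ)), one_div, inv_mul_cancel₀ hIr.ne', one_mul]
    _ ≤ E0 * (2 * (1 + B * E0) ^ (2 * t)) := by
        apply mul_le_mul_of_nonneg_left _ (Real.exp_pos _).le
        rw [← hlamE]
        exact frac_sum B t hB lam hlam0 Q (fun q hq => ⟨(hQ q hq).1, (hQ q hq).2.1⟩)

end Pool.Agent.R456.RP
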