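import Pool.Agent.R456.RP.Fiber

/-! The fourth moment of the exponential sum over the reversed integers. -/

set_option autoImplicit false

namespace Pool.Agent.R456.RP
open Finset

/-- the distance to the nearest integer -/
noncomputable def dn (x : ℝ) : ℝ := |x - round x|

lemma dn_nonneg (x : ℝ) : 0 ≤ dn x := abs_nonneg _

lemma dn_le_half (x : ℝ) : dn x ≤ 1 / 2 := abs_sub_round x

lemma dn_add_int (x : ℝ) (n : ℤ) : dn (x + n) = dn x := by
  unfold dn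
  rw [round_add_intCast]
  push_cast
  congr 1
  ring

lemma dn_le (x : ℝ) (n : ℤ) : dn x ≤ |x - n| := round_le x n

lemma le_dn (x c : ℝ) (h : ∀ n : ℤ, c ≤ |x - n|) : c ≤ dn x := h _

lemma one_sub_cos (x : ℝ) : 8 * dn x ^ 2 ≤ 1 - Real.cos (2 * Real.pi * x) := by
  have hpi := Real.pi_pos
  set t := |x - round x| with ht
  have h1 : Real.cos (2 * Real.pi * x) = Real.cos (2 * (Real.pi * t)) := by
    have h2 : Real.cos (2 * Real.pi * x) = Real.cos (2 * Real.pi * (x - round x)) := by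
      have : 2 * Real.pi * (x - round x) = 2 * Real.pi * x - (round x : ℤ) * (2 * Real.pi) := by ring
      rw [this, Real.cos_sub_int_mul_two_pi]
    rw [h2, ht]
    rcases abs_cases (x - (round x : ℝ)) with ⟨h, _⟩ | ⟨h, _⟩
    · rw [h]; congr 1; ring
    · rw [h, ← Real.cos_neg]; congr 1; ring
  have ht0 : 0 ≤ t := abs_nonneg _
  have ht1 : t ≤ 1 / 2 := abs_sub_round x
  have h3 : 2 * t ≤ Real.sin (Real.pi * t) := by
    have := Real.mul_le_sin (x := Real.pi * t) (by positivity) (by nlinarith)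
    calc 2 * t = 2 / Real.pi * (Real.pi * t) := by field_simp
      _ ≤ _ := this
  rw [h1, Real.cos_two_mul, Real.cos_sq']
  have h4 : (2 * t) ^ 2 ≤ Real.sin (Real.pi * t) ^ 2 := pow_le_pow_left₀ (by positivity) h3 2
  have h5 : dn x = t := rfl
  rw [h5]
  nlinarith

lemma sum_range_mul' {M : Type*} [AddCommMonoid M] (f : ℕ → M) (m n : ℕ) :
    ∑ k ∈ range (m * n), f k = ∑ j ∈ range m, ∑ i ∈ range n, f (j * n + i) := by
  induction m with
  | zero => simp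
  | succ m ih =>
    rw [sum_range_succ, ← ih, Nat.succ_mul, sum_range_add]

/-- The exponential sum. -/
noncomputable def Psi (b L : ℕ) (θ α : ℝ) : ℂ := ∑ n ∈ range (b ^ L), e (α * rev b L n + θ * n)

/-- Its fourth moment. -/
noncomputable def A (b L : ℕ) (θ : ℝ) : ℝ :=
  (1 / (b : ℝ) ^ L) * ∑ k ∈ range (b ^ L), ‖Psi b L θ (k / (b : ℝ) ^ L)‖ ^ 4

lemma A_nonneg (b L : ℕ) (θ : ℝ) : 0 ≤ A b L θ := by unfold A; positivity

lemma Psi_add_nat (b L : ℕ) (θ α : ℝ) (j : ℕ) : Psi b L θ (α + j) = Psi b L θ α := by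
  unfold Psi
  apply sum_congr rfl
  intro n _
  have : (α + j) * rev b L n + θ * n = (α * rev b L n + θ * n) + ((j * rev b L n : ℕ) : ℤ) := by
    push_cast; ring
  rw [this, e_add_int]

lemma Psi_step (b L : ℕ) (hb : 0 < b) (θ α : ℝ) :
    Psi b (L + 2) θ α = (∑ T ∈ range (b ^ 2), e (α * tau b T + θ * b ^ L * T)) *
      Psi b L θ (b ^ 2 * α) := by
  unfold Psi
  have h1 : b ^ (L + 2) = b ^ 2 * b ^ L := by ring
  rw [h1, sum_range_mul', sum_mul]
  apply sum_congr rfl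
  intro T hT
  rw [mem_range] at hT
  rw [mul_sum]
  apply sum_congr rfl
  intro n hn
  rw [mem_range] at hn
  rw [rev_step b L hb T n hT hn, ← e_add]
  congr 1
  push_cast
  ring

lemma tau_inj (b : ℕ) (hb : 0 < b) : ∀ T < b ^ 2, ∀ T' < b ^ 2, tau b T = tau b T' → T = T' := by
  intro T hT T' hT' h
  rw [← tau_tau b T hb hT, h, tau_tau b T' hb hT']

lemma A_step (b L : ℕ) (hb : 2 ≤ b) (θ : ℝ) :
    A b (L + 2) θ ≤ ((b : ℝ) ^ 6 - 16 * dn (θ * b ^ L * ((b : ℝ) ^ 2 - 1)) ^ 2) * A b L θ := by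
  have hb0 : 0 < b := by omega
  have hbr : (0 : ℝ) < b := by positivity
  set B := b ^ 2 with hB
  have hB0 : 0 < B := by positivity
  have hBr : (B : ℝ) = (b : ℝ) ^ 2 := by rw [hB]; push_cast; rfl
  set Q := b ^ L with hQ
  have hQ0 : 0 < Q := by positivity
  have hQr : (Q : ℝ) = (b : ℝ) ^ L := by rw [hQ]; push_cast; rfl
  have hQr0 : (Q : ℝ) ≠ 0 := by positivity
  have hBr0 : (B : ℝ) ≠ 0 := by positivity
  have h1 : b ^ (L + 2) = B * Q := by rw [hB, hQ]; ring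
  have h1r : (b : ℝ) ^ (L + 2) = B * Q := by rw [hBr, hQr]; ring
  have hmain : A b (L + 2) θ = (1 / (Q : ℝ)) * ∑ i ∈ range Q, ‖Psi b L θ (i / Q)‖ ^ 4 *
      ((1 / (B : ℝ)) * ∑ j ∈ range B,
        ‖∑ T ∈ range B, e (((i / Q : ℝ) + j) / B * tau b T + θ * b ^ L * T)‖ ^ 4) := by
    unfold A
    rw [h1, h1r, sum_range_mul', sum_comm, mul_sum, mul_sum]
    apply sum_congr rfl
    intro i _
    rw [mul_sum, mul_sum, mul_sum, mul_sum]
    apply sum_congr rfl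
    intro j _
    have h2 : (((j * Q + i : ℕ) : ℝ) / (B * Q)) = ((i / Q : ℝ) + j) / B := by
      push_cast
      field_simp
      ring
    rw [h2, Psi_step b L hb0, norm_mul, mul_pow]
    have h3 : (b : ℝ) ^ 2 * (((i / Q : ℝ) + j) / B) = (i / Q : ℝ) + j := by
      rw [← hBr]; field_simp
    rw [h3, Psi_add_nat]
    have h4 : (1 / ((B : ℝ) * Q)) = (1 / Q) * (1 / B) := by
      field_simp
    rw [h4]
    ring
  rw [hmain]
  have hK : ∀ i ∈ range Q, ‖Psi b L θ (i / Q)‖ ^ 4 *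
      ((1 / (B : ℝ)) * ∑ j ∈ range B,
        ‖∑ T ∈ range B, e (((i / Q : ℝ) + j) / B * tau b T + θ * b ^ L * T)‖ ^ 4) ≤
      ‖Psi b L θ (i / Q)‖ ^ 4 * ((b : ℝ) ^ 6 - 16 * dn (θ * b ^ L * ((b : ℝ) ^ 2 - 1)) ^ 2) := by
    intro i _
    apply mul_le_mul_of_nonneg_left _ (by positivity)
    have hbb : b * (b - 1) < B := by
      rw [hB, sq]
      exact Nat.mul_lt_mul_of_pos_left (by omega) hb0
    have hb1 : b < B := by
      rw [hB, sq]
      calc b = b * 1 := (mul_one b).symm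
        _ < b * b := Nat.mul_lt_mul_of_pos_left (by omega) hb0
    have ht1 : tau b (b * (b - 1)) = b - 1 := by
      unfold tau
      rw [Nat.mul_mod_right, Nat.mul_div_cancel_left _ hb0]
      simp
    have ht2 : tau b b = 1 := by
      unfold tau
      rw [Nat.mod_self, Nat.div_self hb0]
      simp
    have ht3 : tau b 1 = b := by
      unfold tau
      rw [Nat.mod_eq_of_lt (by omega), Nat.div_eq_of_lt (by omega)]
      omega
    have ht4 : tau b 0 = 0 := by simp [tau]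
    have h5 := fiber_le B hB0 (tau b) (fun T => θ * b ^ L * T)
      (fun T hT => tau_lt b T hb0 hT) (tau_inj b hb0) (b * (b - 1)) b 1 0 hbb hb1 (by omega) hB0
      (by
        intro h
        have h6 : 2 * 1 ≤ b * (b - 1) := Nat.mul_le_mul hb (by omega)
        omega)
      (by rw [ht1, ht2, ht3, ht4]; omega) (i / Q)
    refine h5.trans ?_
    have h6 : θ * b ^ L * ((b * (b - 1) : ℕ) : ℝ) + θ * b ^ L * (b : ℝ) - θ * b ^ L * ((1 : ℕ) : ℝ) -
        θ * b ^ L * ((0 : ℕ) : ℝ) = θ * b ^ L * ((b : ℝ) ^ 2 - 1) := by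
      push_cast [Nat.cast_sub (show 1 ≤ b by omega)]
      ring
    have h7 := one_sub_cos (θ * b ^ L * ((b : ℝ) ^ 2 - 1))
    rw [h6, hBr]
    have h8 : ((b : ℝ) ^ 2) ^ 3 = (b : ℝ) ^ 6 := by ring
    rw [h8]
    linarith
  have h9 : A b L θ = (1 / (Q : ℝ)) * ∑ i ∈ range Q, ‖Psi b L θ (i / Q)‖ ^ 4 := by
    unfold A
    rw [hQr]
  rw [h9]
  calc _ ≤ (1 / (Q : ℝ)) * ∑ i ∈ range Q, ‖Psi b L θ (i / Q)‖ ^ 4 *
        ((b : ℝ) ^ 6 - 16 * dn (θ * b ^ L * ((b : ℝ) ^ 2 - 1)) ^ 2) :=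
        mul_le_mul_of_nonneg_left (sum_le_sum hK) (by positivity)
    _ = _ := by rw [← sum_mul]; ring

lemma A_step' (b L : ℕ) (hb : 2 ≤ b) (θ : ℝ) :
    A b (L + 2) θ ≤ (b : ℝ) ^ 6 *
      Real.exp (-(16 / (b : ℝ) ^ 6) * dn (θ * b ^ L * ((b : ℝ) ^ 2 - 1)) ^ 2) * A b L θ := by
  have hbr : (0 : ℝ) < b := by positivity
  refine (A_step b L hb θ).trans ?_
  apply mul_le_mul_of_nonneg_right _ (A_nonneg b L θ)
  set d := dn (θ * b ^ L * ((b : ℝ) ^ 2 - 1)) ^ 2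
  have h := Real.add_one_le_exp (-(16 / (b : ℝ) ^ 6) * d)
  calc (b : ℝ) ^ 6 - 16 * d = (b : ℝ) ^ 6 * (-(16 / (b : ℝ) ^ 6) * d + 1) := by
        field_simp
        ring
    _ ≤ _ := mul_le_mul_of_nonneg_left h (by positivity)

/-- The bound for the fourth moment. -/
theorem A_le (b : ℕ) (hb : 2 ≤ b) (θ : ℝ) : ∀ L : ℕ,
    A b L θ ≤ b * (b : ℝ) ^ (3 * L) * Real.exp (-(16 / (b : ℝ) ^ 6) *
      ∑ i ∈ range (L / 2), dn (θ * ((b : ℝ) ^ 2 - 1) * b ^ (L % 2) * ((b ^ 2 : ℕ) : ℝ) ^ i) ^ 2)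
  | 0 => by
    have h : A b 0 θ = 1 := by
      unfold A Psi
      simp [rev_zero, e_zero]
    rw [h]
    have : (2 : ℝ) ≤ b := by exact_mod_cast hb
    simp only [Nat.zero_div, range_zero, sum_empty, mul_zero, Real.exp_zero, pow_zero, mul_one]
    linarith
  | 1 => by
    have hbr : (0 : ℝ) < b := by positivity
    have h : A b 1 θ ≤ (b : ℝ) ^ 4 := by
      unfold A
      have h1 : ∀ k ∈ range (b ^ 1), ‖Psi b 1 θ (k / (b : ℝ) ^ 1)‖ ^ 4 ≤ (b : ℝ) ^ 4 := by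
        intro k _
        apply pow_le_pow_left₀ (norm_nonneg _)
        unfold Psi
        refine (norm_sum_le _ _).trans ?_
        simp only [norm_e]
        simp
      calc _ ≤ (1 / (b : ℝ) ^ 1) * ∑ k ∈ range (b ^ 1), (b : ℝ) ^ 4 :=
            mul_le_mul_of_nonneg_left (sum_le_sum h1) (by positivity)
        _ = (b : ℝ) ^ 4 := by
            rw [sum_const, card_range, nsmul_eq_mul]
            push_cast
            field_simp
    refine h.trans ?_
    simp only [Nat.reduceDiv, range_zero, sum_empty, mul_zero, Real.exp_zero, mul_one]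
    rw [← pow_succ']
  | L + 2 => by
    have ih := A_le b hb θ L
    have hbr : (0 : ℝ) < b := by positivity
    refine (A_step' b L hb θ).trans ?_
    have h1 : (L + 2) / 2 = L / 2 + 1 := by omega
    have h2 : (L + 2) % 2 = L % 2 := by omega
    rw [h1, h2, sum_range_succ]
    have h3 : θ * (b : ℝ) ^ L * ((b : ℝ) ^ 2 - 1) =
        θ * ((b : ℝ) ^ 2 - 1) * b ^ (L % 2) * ((b ^ 2 : ℕ) : ℝ) ^ (L / 2) := by
      have h4 : (b : ℝ) ^ L = b ^ (L % 2) * ((b ^ 2 : ℕ) : ℝ) ^ (L / 2) := by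
        push_cast
        rw [← pow_mul, ← pow_add]
        congr 1
        omega
      rw [h4]; ring
    rw [h3, mul_add (-(16 / (b : ℝ) ^ 6)), Real.exp_add]
    set E1 := Real.exp (-(16 / (b : ℝ) ^ 6) *
      dn (θ * ((b : ℝ) ^ 2 - 1) * b ^ (L % 2) * ((b ^ 2 : ℕ) : ℝ) ^ (L / 2)) ^ 2)
    set E2 := Real.exp (-(16 / (b : ℝ) ^ 6) *
      ∑ i ∈ range (L / 2), dn (θ * ((b : ℝ) ^ 2 - 1) * b ^ (L % 2) * ((b ^ 2 : ℕ) : ℝ) ^ i) ^ 2)
    calc (b : ℝ) ^ 6 * E1 * A b L θ ≤ (b : ℝ) ^ 6 * E1 * (b * (b : ℝ) ^ (3 * L) * E2) :=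
          mul_le_mul_of_nonneg_left ih (by positivity)
      _ = _ := by ring

end Pool.Agent.R456.RP
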