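import Pool.Agent.R456.RP.Sel

/-! The additive energy of the reversed integers without small prime factors. -/

set_option autoImplicit false

namespace Pool.Agent.R456.RP
open Finset
open Pool.Agent.Helper923.PPS

instance fact4 : Fact (1 ≤ (4 : ENNReal)) := ⟨by norm_num⟩

/-- the vector of the values at `k / X` -/
noncomputable def vec (X : ℕ) (G : ℝ → ℂ) : PiLp 4 (fun _ : Fin X => ℂ) :=
  WithLp.toLp 4 (fun k : Fin X => G (((k : ℕ) : ℝ) / (X : ℝ)))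

lemma vec_norm (X : ℕ) (G : ℝ → ℂ) :
    ‖vec X G‖ ^ 4 = ∑ k ∈ range X, ‖G ((k : ℝ) / X)‖ ^ 4 := by
  rw [PiLp.norm_eq_of_nat 4 (by norm_num)]
  have h0 : 0 ≤ ∑ i : Fin X, ‖(vec X G).ofLp i‖ ^ 4 := by positivity
  rw [← Real.rpow_natCast, ← Real.rpow_mul h0]
  norm_num
  unfold vec
  rw [← Fin.sum_univ_eq_sum_range (fun k => ‖G ((k : ℝ) / X)‖ ^ 4) X]

lemma vec_add (X : ℕ) (G H : ℝ → ℂ) : vec X (fun α => G α + H α) = vec X G + vec X H := rfl

lemma vec_smul (X : ℕ) (c : ℂ) (G : ℝ → ℂ) : vec X (fun α => c * G α) = c • vec X G := rfl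

lemma vec_sum (X : ℕ) {ι : Type*} (s : Finset ι) (G : ι → ℝ → ℂ) :
    vec X (fun α => ∑ i ∈ s, G i α) = ∑ i ∈ s, vec X (G i) := by
  classical
  induction s using Finset.induction_on with
  | empty => simp only [sum_empty]; rfl
  | insert a s ha ih =>
    rw [sum_insert ha, ← ih, ← vec_add]
    congr 1
    funext α
    rw [sum_insert ha]

/-- the modulus -/
def q0 (b : ℕ) : ℕ := b * (b ^ 2 - 1)

/-- the multiplier -/
def cc (b L : ℕ) : ℕ := (b ^ 2 - 1) * b ^ (L % 2)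

/-- the majorant -/
noncomputable def om (b R n : ℕ) : ℝ :=
  ∑ d ∈ (PP (q0 b) R).divisors.filter (fun d => d ∣ n), wt (q0 b) R d

lemma om_ge (b R n : ℕ) (hR : 1 ≤ R) : (if Nat.Coprime (PP (q0 b) R) n then (1 : ℝ) else 0) ≤
    om b R n := wt_ge _ _ _ hR

lemma om_nonneg (b R n : ℕ) (hR : 1 ≤ R) : 0 ≤ om b R n := by
  refine le_trans ?_ (om_ge b R n hR)
  split_ifs <;> norm_num

/-- its Fourier expansion -/
lemma om_eq (b R n : ℕ) : ((om b R n : ℝ) : ℂ) = ∑ d ∈ (PP (q0 b) R).divisors,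
    (((wt (q0 b) R d / d : ℝ)) : ℂ) * ∑ h ∈ range d, e ((h : ℝ) / d * n) := by
  unfold om
  rw [sum_filter, Complex.ofReal_sum]
  apply sum_congr rfl
  intro d hd
  have hd0 : 0 < d := Nat.pos_of_mem_divisors hd
  have h1 : ∑ h ∈ range d, e ((h : ℝ) / d * n) = if d ∣ n then (d : ℂ) else 0 := by
    have h2 := sum_e d hd0 (n : ℤ)
    have h3 : ∀ h ∈ range d, e ((h : ℝ) / d * n) = e (((n : ℤ) : ℝ) * (h / d)) := by
      intro h _
      congr 1
      push_cast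
      ring
    rw [sum_congr rfl h3, h2]
    have h4 : ((d : ℤ) ∣ (n : ℤ)) ↔ d ∣ n := Int.natCast_dvd_natCast
    by_cases h5 : d ∣ n
    · rw [if_pos h5, if_pos (h4.2 h5)]
    · rw [if_neg h5, if_neg (fun h => h5 (h4.1 h))]
  rw [h1]
  have hdc : (d : ℂ) ≠ 0 := by exact_mod_cast hd0.ne'
  split_ifs
  · push_cast
    field_simp
  · simp

/-- the exponential sum with the majorant -/
noncomputable def FF (b L R : ℕ) (α : ℝ) : ℂ :=
  ∑ n ∈ range (b ^ L), ((om b R n : ℝ) : ℂ) * e (α * rev b L n)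

lemma FF_eq (b L R : ℕ) (α : ℝ) : FF b L R α = ∑ d ∈ (PP (q0 b) R).divisors,
    (((wt (q0 b) R d / d : ℝ)) : ℂ) * ∑ h ∈ range d, Psi b L ((h : ℝ) / d) α := by
  unfold FF Psi
  simp_rw [om_eq, sum_mul, mul_sum]
  rw [sum_comm]
  apply sum_congr rfl
  intro d _
  rw [sum_comm]
  apply sum_congr rfl
  intro h _
  rw [sum_mul]
  apply sum_congr rfl
  intro n _
  rw [mul_assoc, ← e_add, add_comm]

lemma norm_vec_Psi (b L : ℕ) (hb : 2 ≤ b) (θ : ℝ) : ‖vec (b ^ L) (Psi b L θ)‖ ≤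
    (b : ℝ) * (b : ℝ) ^ L * Real.exp (-(4 / (b : ℝ) ^ 6) * SJ (b ^ 2) (L / 2) (θ * cc b L)) := by
  have hbr : (1 : ℝ) ≤ b := by exact_mod_cast (by omega : 1 ≤ b)
  have hb0 : (0 : ℝ) < b := by linarith
  have h1 := vec_norm (b ^ L) (Psi b L θ)
  have h2 := A_le b hb θ L
  have h3 : ∑ k ∈ range (b ^ L), ‖Psi b L θ ((k : ℝ) / ((b ^ L : ℕ) : ℝ))‖ ^ 4 =
      (b : ℝ) ^ L * A b L θ := by
    unfold A
    push_cast
    field_simp
  rw [h3] at h1
  have h4 : ∑ i ∈ range (L / 2), dn (θ * ((b : ℝ) ^ 2 - 1) * b ^ (L % 2) * ((b ^ 2 : ℕ) : ℝ) ^ i) ^ 2 =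
      SJ (b ^ 2) (L / 2) (θ * cc b L) := by
    unfold SJ cc
    apply sum_congr rfl
    intro i _
    congr 2
    have : 1 ≤ b ^ 2 := Nat.one_le_pow _ _ (by omega)
    push_cast [Nat.cast_sub this]
    ring
  rw [h4] at h2
  set S := SJ (b ^ 2) (L / 2) (θ * cc b L) with hS
  have h5 : ‖vec (b ^ L) (Psi b L θ)‖ ^ 4 ≤
      ((b : ℝ) * (b : ℝ) ^ L * Real.exp (-(4 / (b : ℝ) ^ 6) * S)) ^ 4 := by
    rw [h1]
    have h6 : Real.exp (-(4 / (b : ℝ) ^ 6) * S) ^ 4 = Real.exp (-(16 / (b : ℝ) ^ 6) * S) := by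
      rw [← Real.exp_nat_mul]
      congr 1
      push_cast
      ring
    rw [mul_pow, mul_pow, h6]
    calc (b : ℝ) ^ L * A b L θ ≤
        (b : ℝ) ^ L * (b * (b : ℝ) ^ (3 * L) * Real.exp (-(16 / (b : ℝ) ^ 6) * S)) :=
          mul_le_mul_of_nonneg_left h2 (by positivity)
      _ = b ^ 1 * ((b : ℝ) ^ L) ^ 4 * Real.exp (-(16 / (b : ℝ) ^ 6) * S) := by
          rw [← pow_mul, pow_one]
          have : (b : ℝ) ^ L * (b * (b : ℝ) ^ (3 * L) * Real.exp (-(16 / (b : ℝ) ^ 6) * S)) =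
            b * (b ^ L * (b : ℝ) ^ (3 * L)) * Real.exp (-(16 / (b : ℝ) ^ 6) * S) := by ring
          rw [this, ← pow_add]
          congr 3
          ring
      _ ≤ b ^ 4 * ((b : ℝ) ^ L) ^ 4 * Real.exp (-(16 / (b : ℝ) ^ 6) * S) := by
          gcongr
          norm_num
  exact le_of_pow_le_pow_left₀ (by norm_num) (by positivity) h5

/-- the error term -/
noncomputable def TT (b L R : ℕ) : ℝ := ∑ d ∈ (PP (q0 b) R).divisors, |wt (q0 b) R d| / d *
  ∑ h ∈ Ico 1 d, Real.exp (-(4 / (b : ℝ) ^ 6) * SJ (b ^ 2) (L / 2) ((h : ℝ) / d * cc b L))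

lemma TT_nonneg (b L R : ℕ) : 0 ≤ TT b L R := by unfold TT; positivity

lemma norm_vec_FF (b L R : ℕ) (hb : 2 ≤ b) (hR : 1 ≤ R) : ‖vec (b ^ L) (FF b L R)‖ ≤
    (b : ℝ) * (b : ℝ) ^ L * ((selS (apSieve 0 (q0 b) 0 R) R)⁻¹ + TT b L R) := by
  have hbr : (1 : ℝ) ≤ b := by exact_mod_cast (by omega : 1 ≤ b)
  set X := b ^ L with hX
  have h1 : vec X (FF b L R) = ∑ d ∈ (PP (q0 b) R).divisors,
      (((wt (q0 b) R d / d : ℝ)) : ℂ) • ∑ h ∈ range d, vec X (Psi b L ((h : ℝ) / d)) := by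
    have h2 : FF b L R = fun α => ∑ d ∈ (PP (q0 b) R).divisors,
        (((wt (q0 b) R d / d : ℝ)) : ℂ) * ∑ h ∈ range d, Psi b L ((h : ℝ) / d) α := by
      funext α
      exact FF_eq b L R α
    rw [h2, vec_sum]
    apply sum_congr rfl
    intro d _
    rw [vec_smul, vec_sum]
  have h2 : vec X (FF b L R) = (∑ d ∈ (PP (q0 b) R).divisors,
      (((wt (q0 b) R d / d : ℝ)) : ℂ)) • vec X (Psi b L 0) +
      ∑ d ∈ (PP (q0 b) R).divisors,
      (((wt (q0 b) R d / d : ℝ)) : ℂ) • ∑ h ∈ Ico 1 d, vec X (Psi b L ((h : ℝ) / d)) := by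
    rw [h1, sum_smul, ← sum_add_distrib]
    apply sum_congr rfl
    intro d hd
    have hd0 : 0 < d := Nat.pos_of_mem_divisors hd
    rw [← smul_add]
    congr 1
    rw [range_eq_Ico, sum_eq_sum_Ico_succ_bot hd0]
    simp
  rw [h2]
  refine (norm_add_le _ _).trans ?_
  rw [mul_add]
  apply add_le_add
  · rw [norm_smul]
    have h3 : (∑ d ∈ (PP (q0 b) R).divisors, (((wt (q0 b) R d / d : ℝ)) : ℂ)) =
        (((selS (apSieve 0 (q0 b) 0 R) R)⁻¹ : ℝ) : ℂ) := by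
      rw [← sum_wt (q0 b) R hR, Complex.ofReal_sum]
    have h4 := selS_pos (apSieve 0 (q0 b) 0 R) R (by exact_mod_cast hR)
    rw [h3, Complex.norm_real, Real.norm_of_nonneg (by positivity), mul_comm]
    apply mul_le_mul_of_nonneg_right _ (by positivity)
    have h5 := norm_vec_Psi b L hb 0
    refine h5.trans ?_
    have h6 : Real.exp (-(4 / (b : ℝ) ^ 6) * SJ (b ^ 2) (L / 2) (0 * cc b L)) ≤ 1 := by
      rw [Real.exp_le_one_iff]
      have := SJ_nonneg (b ^ 2) (L / 2) (0 * cc b L)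
      have h7 : 0 ≤ 4 / (b : ℝ) ^ 6 := by positivity
      nlinarith
    calc _ ≤ (b : ℝ) * (b : ℝ) ^ L * 1 := mul_le_mul_of_nonneg_left h6 (by positivity)
      _ = _ := mul_one _
  · refine (norm_sum_le _ _).trans ?_
    unfold TT
    rw [mul_sum]
    apply sum_le_sum
    intro d hd
    rw [norm_smul, Complex.norm_real, Real.norm_eq_abs, abs_div,
      abs_of_nonneg (Nat.cast_nonneg d : (0 : ℝ) ≤ d)]
    have h3 : ‖∑ h ∈ Ico 1 d, vec X (Psi b L ((h : ℝ) / d))‖ ≤ ∑ h ∈ Ico 1 d,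
        (b : ℝ) * (b : ℝ) ^ L *
          Real.exp (-(4 / (b : ℝ) ^ 6) * SJ (b ^ 2) (L / 2) ((h : ℝ) / d * cc b L)) := by
      refine (norm_sum_le _ _).trans ?_
      apply sum_le_sum
      intro h _
      exact norm_vec_Psi b L hb _
    calc _ ≤ |wt (q0 b) R d| / d * ∑ h ∈ Ico 1 d, (b : ℝ) * (b : ℝ) ^ L *
          Real.exp (-(4 / (b : ℝ) ^ 6) * SJ (b ^ 2) (L / 2) ((h : ℝ) / d * cc b L)) :=
          mul_le_mul_of_nonneg_left h3 (by positivity)
      _ = _ := by rw [← mul_sum]; ring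

open Classical in
/-- The energy is controlled by the norm. -/
lemma energy_le (b L R : ℕ) (hb : 2 ≤ b) (hR : 1 ≤ R) (S : Finset ℕ) (hS : S ⊆ range (b ^ L))
    (hcop : ∀ n ∈ S, Nat.Coprime (PP (q0 b) R) n) :
    (b : ℝ) ^ L * (((S.image (rev b L)).addEnergy (S.image (rev b L)) : ℕ) : ℝ) ≤
      ‖vec (b ^ L) (FF b L R)‖ ^ 4 := by
  have hb0 : 0 < b := by omega
  set X := b ^ L with hX
  have hX0 : 0 < X := by positivity
  have hXr : ((X : ℕ) : ℝ) = (b : ℝ) ^ L := by rw [hX]; push_cast; rfl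
  have hXr0 : (X : ℝ) ≠ 0 := by positivity
  -- quadruples
  set Z := (quad X).filter (fun q => sg (rev b L) q = 0 ∧ q.1.1 ∈ S ∧ q.1.2 ∈ S ∧ q.2.1 ∈ S ∧
    q.2.2 ∈ S) with hZ
  have h1 : (S.image (rev b L)).addEnergy (S.image (rev b L)) ≤ Z.card := by
    unfold Finset.addEnergy
    have h2 : (((S.image (rev b L)) ×ˢ (S.image (rev b L))) ×ˢ
        ((S.image (rev b L)) ×ˢ (S.image (rev b L)))).filter
        (fun x => x.1.1 + x.2.1 = x.1.2 + x.2.2) ⊆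
        Z.image (fun q => ((rev b L q.1.1, rev b L q.2.1), (rev b L q.1.2, rev b L q.2.2))) := by
      rintro ⟨⟨x1, x2⟩, ⟨x3, x4⟩⟩ hx
      simp only [mem_filter, mem_product, mem_image] at hx
      obtain ⟨⟨⟨⟨n1, hn1, rfl⟩, ⟨n2, hn2, rfl⟩⟩, ⟨⟨n3, hn3, rfl⟩, ⟨n4, hn4, rfl⟩⟩⟩, hsum⟩ := hx
      rw [mem_image]
      refine ⟨((n1, n3), (n2, n4)), ?_, rfl⟩
      rw [hZ, mem_filter]
      refine ⟨?_, ?_, hn1, hn3, hn2, hn4⟩
      · simp only [quad, mem_product]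
        exact ⟨⟨hS hn1, hS hn3⟩, hS hn2, hS hn4⟩
      · simp only [sg]
        omega
    exact (card_le_card h2).trans card_image_le
  have h2 : ((∑ k ∈ range X, ‖FF b L R ((k : ℝ) / X)‖ ^ 4 : ℝ) : ℂ) =
      ((∑ q ∈ (quad X).filter (fun q => (X : ℤ) ∣ sg (rev b L) q),
        X * (om b R q.1.1 * om b R q.1.2 * (om b R q.2.1 * om b R q.2.2)) : ℝ) : ℂ) := by
    rw [Complex.ofReal_sum, Complex.ofReal_sum]
    have h3 : ∀ k ∈ range X, ((‖FF b L R ((k : ℝ) / X)‖ ^ 4 : ℝ) : ℂ) = ∑ q ∈ quad X,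
        (((om b R q.1.1 * om b R q.1.2 * (om b R q.2.1 * om b R q.2.2) : ℝ)) : ℂ) *
          e ((sg (rev b L) q : ℝ) * (k / X)) := by
      intro k _
      unfold FF
      rw [norm_pow_four]
      apply sum_congr rfl
      intro q _
      rw [map_mul, map_mul, Complex.conj_ofReal, Complex.conj_ofReal, e_conj, e_conj]
      have h4 : e ((sg (rev b L) q : ℝ) * ((k : ℝ) / X)) = e ((k : ℝ) / X * rev b L q.1.1) *
          e ((k : ℝ) / X * rev b L q.1.2) * (e (-((k : ℝ) / X * rev b L q.2.1)) *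
          e (-((k : ℝ) / X * rev b L q.2.2))) := by
        rw [← e_add, ← e_add, ← e_add]
        congr 1
        unfold sg
        push_cast
        ring
      rw [h4]
      push_cast
      ring
    rw [sum_congr rfl h3, sum_comm, sum_filter]
    apply sum_congr rfl
    intro q _
    rw [← mul_sum, sum_e X hX0]
    split_ifs
    · push_cast; ring
    · simp
  have h3 := Complex.ofReal_injective h2
  rw [vec_norm, h3, ← hXr]
  have hnn : ∀ q : (ℕ × ℕ) × (ℕ × ℕ),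
      0 ≤ (X : ℝ) * (om b R q.1.1 * om b R q.1.2 * (om b R q.2.1 * om b R q.2.2)) := by
    intro q
    have := om_nonneg b R q.1.1 hR
    have := om_nonneg b R q.1.2 hR
    have := om_nonneg b R q.2.1 hR
    have := om_nonneg b R q.2.2 hR
    positivity
  have hone : ∀ n ∈ S, 1 ≤ om b R n := by
    intro n hn
    have := om_ge b R n hR
    rwa [if_pos (hcop n hn)] at this
  calc (X : ℝ) * (((S.image (rev b L)).addEnergy (S.image (rev b L)) : ℕ) : ℝ) ≤ X * Z.card := by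
        apply mul_le_mul_of_nonneg_left _ (Nat.cast_nonneg _)
        exact_mod_cast h1
    _ = ∑ q ∈ Z, (X : ℝ) * 1 := by
        rw [sum_const, nsmul_eq_mul]; ring
    _ ≤ ∑ q ∈ Z, (X : ℝ) * (om b R q.1.1 * om b R q.1.2 * (om b R q.2.1 * om b R q.2.2)) := by
        apply sum_le_sum
        intro q hq
        rw [hZ, mem_filter] at hq
        obtain ⟨_, _, e1, e2, e3, e4⟩ := hq
        apply mul_le_mul_of_nonneg_left _ (Nat.cast_nonneg _)
        exact one_le_mul_of_one_le_of_one_le (one_le_mul_of_one_le_of_one_le (hone _ e1) (hone _ e2))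
          (one_le_mul_of_one_le_of_one_le (hone _ e3) (hone _ e4))
    _ ≤ _ := by
        apply sum_le_sum_of_subset_of_nonneg
        · intro q hq
          rw [hZ, mem_filter] at hq
          rw [mem_filter]
          exact ⟨hq.1, by rw [hq.2.1]; exact dvd_zero _⟩
        · intro q _ _
          exact hnn q

/-- The bound for the energy in terms of the error term. -/
theorem energy_bound (b L R : ℕ) (hb : 2 ≤ b) (hR : 1 ≤ R) (S : Finset ℕ) (hS : S ⊆ range (b ^ L))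
    (hcop : ∀ n ∈ S, Nat.Coprime (PP (q0 b) R) n) :
    (((S.image (rev b L)).addEnergy (S.image (rev b L)) : ℕ) : ℝ) ≤
      (b : ℝ) ^ 4 * (b : ℝ) ^ (3 * L) *
        ((selS (apSieve 0 (q0 b) 0 R) R)⁻¹ + TT b L R) ^ 4 := by
  have h1 := energy_le b L R hb hR S hS hcop
  have h2 := norm_vec_FF b L R hb hR
  have hb0 : (0 : ℝ) < b := by exact_mod_cast (by omega : 0 < b)
  have h3 := pow_le_pow_left₀ (norm_nonneg _) h2 4
  have h4 := h1.trans h3
  have hX : (0 : ℝ) < (b : ℝ) ^ L := by positivity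
  have h5 : ((b : ℝ) * (b : ℝ) ^ L * ((selS (apSieve 0 (q0 b) 0 R) R)⁻¹ + TT b L R)) ^ 4 =
      (b : ℝ) ^ L * ((b : ℝ) ^ 4 * (b : ℝ) ^ (3 * L) *
        ((selS (apSieve 0 (q0 b) 0 R) R)⁻¹ + TT b L R) ^ 4) := by
    have : (b : ℝ) ^ (3 * L) = ((b : ℝ) ^ L) ^ 3 := by rw [← pow_mul]; congr 1; ring
    rw [this]
    ring
  rw [h5] at h4
  exact le_of_mul_le_mul_left h4 hX

end Pool.Agent.R456.RP
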