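import Pool.Agent.W23.UBa
import Pool.Agent.Helper923.PPS.BT
import Pool.Agent.R456.RP.Frac

/-! The weights of the sieve. -/

set_option autoImplicit false

namespace Pool.Agent.R456.RP
open Finset ArithmeticFunction BoundingSieve
open Pool.Agent.Helper923.PPS

/-- the number of divisors -/
noncomputable def tt (d : ℕ) : ℝ := d.divisors.card

/-- the weights of the sieve -/
noncomputable def wt (q R d : ℕ) : ℝ := lambdaSquared (selW (apSieve 0 q 0 R) R) d

lemma wt_ge (q R n : ℕ) (hR : 1 ≤ R) :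
    (if Nat.Coprime (PP q R) n then (1 : ℝ) else 0) ≤
      ∑ d ∈ (PP q R).divisors.filter (fun d => d ∣ n), wt q R d := by
  have hP0 : PP q R ≠ 0 := (PP_squarefree q R).ne_zero
  have h := upperMoebius_lambdaSquared (selW (apSieve 0 q 0 R) R)
    (selW_one (apSieve 0 q 0 R) R (by exact_mod_cast hR)) (Nat.gcd (PP q R) n)
  have h1 : (Nat.gcd (PP q R) n).divisors = (PP q R).divisors.filter (fun d => d ∣ n) := by
    rw [← Nat.divisors_filter_dvd_of_dvd hP0 (Nat.gcd_dvd_left _ _)]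
    ext d
    simp only [mem_filter, Nat.mem_divisors, Nat.dvd_gcd_iff]
    tauto
  rw [h1] at h
  exact h

lemma sum_wt (q R : ℕ) (hR : 1 ≤ R) :
    ∑ d ∈ (PP q R).divisors, wt q R d / d = (selS (apSieve 0 q 0 R) R)⁻¹ := by
  rw [← mainSum_selW (apSieve 0 q 0 R) R (by exact_mod_cast hR)]
  unfold mainSum
  apply sum_congr rfl
  intro d _
  rw [div_eq_mul_inv]
  rfl

lemma tt_sqf (d : ℕ) (hd : Squarefree d) : tt d = 2 ^ d.primeFactors.card := by
  unfold tt
  rw [Nat.card_divisors hd.ne_zero]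
  have h : ∀ p ∈ d.primeFactors, d.factorization p + 1 = 2 := by
    intro p hp
    have h1 := hd.natFactorization_le_one p
    have h2 := (Nat.mem_primeFactors.1 hp)
    have h3 := h2.1.factorization_pos_of_dvd h2.2.2 h2.2.1
    omega
  rw [prod_congr rfl h, prod_const]
  push_cast
  rfl

lemma abs_wt_le (q R d : ℕ) (hR : 1 ≤ R) (hd : d ∣ PP q R) :
    |wt q R d| ≤ if d ≤ R ^ 2 then tt d ^ 2 else 0 := by
  have h := Pool.Agent.W23.UB.abs_lambda_le (apSieve 0 q 0 R) R (by exact_mod_cast hR) (d := d) hd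
  refine h.trans ?_
  by_cases h1 : d ≤ R ^ 2
  · rw [if_pos (by exact_mod_cast h1), if_pos h1, tt_sqf d ((PP_squarefree q R).squarefree_of_dvd hd),
      ← pow_mul, mul_comm, pow_mul]
    apply pow_le_pow_left₀ (by norm_num)
    norm_num
  · rw [if_neg (by exact_mod_cast h1), if_neg h1]

lemma selS_log (q R : ℕ) (hq : 0 < q) (hR : 1 ≤ R) :
    Real.log ((R : ℝ) / q) / (2 * q) ≤ selS (apSieve 0 q 0 R) R := by
  have h1 := selS_ge 0 q 0 R
  have h2 := sum_inv_le_two_mul q R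
  have hqr : (0 : ℝ) < q := by positivity
  set K := (R - 1) / q + 1 with hK
  have h3 : (1 / (q : ℝ)) * ∑ k ∈ Icc 1 K, (k : ℝ)⁻¹ ≤
      ∑ n ∈ (Icc 1 R).filter (fun n => Nat.Coprime n q), (n : ℝ)⁻¹ := by
    have hinj : Set.InjOn (fun k : ℕ => 1 + q * (k - 1)) (Icc 1 K) := by
      intro k hk k' hk' h
      simp only [coe_Icc, Set.mem_Icc] at hk hk'
      simp only at h
      have h5 : q * (k - 1) = q * (k' - 1) := by omega
      have h6 := Nat.eq_of_mul_eq_mul_left hq h5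
      omega
    calc (1 / (q : ℝ)) * ∑ k ∈ Icc 1 K, (k : ℝ)⁻¹ ≤
        ∑ k ∈ Icc 1 K, (((1 + q * (k - 1) : ℕ) : ℝ))⁻¹ := by
          rw [mul_sum]
          apply sum_le_sum
          intro k hk
          rw [mem_Icc] at hk
          have hk0 : (0 : ℝ) < k := by exact_mod_cast hk.1
          rw [one_div, ← mul_inv]
          apply inv_anti₀ (by positivity)
          have h5 : 1 + q * (k - 1) ≤ q * k := by
            obtain ⟨j, rfl⟩ : ∃ j, k = j + 1 := ⟨k - 1, by omega⟩
            rw [Nat.add_sub_cancel, Nat.mul_add]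
            omega
          exact_mod_cast h5
      _ = ∑ n ∈ (Icc 1 K).image (fun k : ℕ => 1 + q * (k - 1)), (n : ℝ)⁻¹ := by
          rw [sum_image hinj]
      _ ≤ _ := by
          apply sum_le_sum_of_subset_of_nonneg
          · intro n hn
            rw [mem_image] at hn
            obtain ⟨k, hk, rfl⟩ := hn
            rw [mem_Icc] at hk
            rw [mem_filter, mem_Icc]
            refine ⟨⟨by omega, ?_⟩, ?_⟩
            · have h5 : k - 1 ≤ (R - 1) / q := by omega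
              have h6 : q * (k - 1) ≤ R - 1 := by
                calc q * (k - 1) ≤ q * ((R - 1) / q) := Nat.mul_le_mul_left _ h5
                  _ ≤ R - 1 := Nat.mul_div_le _ _
              omega
            · rw [Nat.coprime_add_mul_left_left]
              exact Nat.coprime_one_left q
          · intros; positivity
  have h4 := log_add_one_le_harmonic K
  rw [harmonic_eq_sum_Icc] at h4
  push_cast at h4
  have h5 : Real.log ((R : ℝ) / q) ≤ Real.log ((K : ℝ) + 1) := by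
    have hR0 : (0 : ℝ) < R := by exact_mod_cast hR
    apply Real.log_le_log (by positivity)
    rw [div_le_iff₀ hqr]
    have h6 : R ≤ (K + 1) * q := by
      have h7 := Nat.lt_div_mul_add (a := R - 1) hq
      have h8 : (K + 1) * q = (R - 1) / q * q + 2 * q := by rw [hK]; ring
      omega
    exact_mod_cast h6
  rw [div_le_iff₀ (by positivity)]
  have h6 : Real.log ((R : ℝ) / q) ≤ ∑ k ∈ Icc 1 K, (k : ℝ)⁻¹ := h5.trans h4
  have h7 : (1 / (q : ℝ)) * ∑ k ∈ Icc 1 K, (k : ℝ)⁻¹ ≤ 2 * selS (apSieve 0 q 0 R) R := by linarith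
  rw [one_div, inv_mul_le_iff₀ hqr] at h7
  nlinarith

/-- a bound for the sums of convolutions -/
lemma conv_le (D : ℕ) (f g : ℕ → ℝ) (hf : ∀ n, 0 ≤ f n) (hg : ∀ n, 0 ≤ g n) :
    ∑ m ∈ Icc 1 D, (∑ p ∈ m.divisorsAntidiagonal, f p.1 * g p.2) / m ≤
      (∑ a ∈ Icc 1 D, f a / a) * ∑ c ∈ Icc 1 D, g c / c := by
  have h1 : ∀ m ∈ Icc 1 D, (∑ p ∈ m.divisorsAntidiagonal, f p.1 * g p.2) / m =
      ∑ p ∈ m.divisorsAntidiagonal, (f p.1 / p.1) * (g p.2 / p.2) := by
    intro m _
    rw [sum_div]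
    apply sum_congr rfl
    intro p hp
    rw [Nat.mem_divisorsAntidiagonal] at hp
    rw [← hp.1, div_mul_div_comm]
    push_cast
    rfl
  rw [sum_congr rfl h1, ← sum_biUnion, sum_mul_sum, ← sum_product']
  · apply sum_le_sum_of_subset_of_nonneg
    · intro p hp
      rw [mem_biUnion] at hp
      obtain ⟨m, hm, hp⟩ := hp
      rw [Nat.mem_divisorsAntidiagonal] at hp
      rw [mem_Icc] at hm
      rw [mem_product, mem_Icc, mem_Icc]
      have h2 : 0 < p.1 := Nat.pos_of_ne_zero (by rintro h; rw [h] at hp; omega)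
      have h3 : 0 < p.2 := Nat.pos_of_ne_zero (by rintro h; rw [h] at hp; omega)
      have h4 : p.1 ≤ p.1 * p.2 := Nat.le_mul_of_pos_right _ h3
      have h5 : p.2 ≤ p.1 * p.2 := Nat.le_mul_of_pos_left _ h2
      omega
    · intro p _ _
      have := hf p.1
      have := hg p.2
      positivity
  · intro m _ m' _ hne
    rw [Function.onFun, disjoint_left]
    intro p hp hp'
    rw [Nat.mem_divisorsAntidiagonal] at hp hp'
    exact hne (hp.1.symm.trans hp'.1)

/-- the harmonic sum -/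
noncomputable def Hs (D : ℕ) : ℝ := ∑ m ∈ Icc 1 D, 1 / (m : ℝ)

lemma Hs_le (D : ℕ) : Hs D ≤ 1 + Real.log D := by
  have h := harmonic_le_one_add_log D
  rw [harmonic_eq_sum_Icc] at h
  push_cast at h
  unfold Hs
  simpa [one_div] using h

lemma Hs_nonneg (D : ℕ) : 0 ≤ Hs D := by unfold Hs; positivity

lemma tt_nonneg (d : ℕ) : 0 ≤ tt d := by unfold tt; positivity

lemma sum_tt (D : ℕ) : ∑ m ∈ Icc 1 D, tt m / m ≤ Hs D ^ 2 := by
  have h := conv_le D (fun _ => 1) (fun _ => 1) (fun _ => zero_le_one) (fun _ => zero_le_one)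
  rw [sq]
  unfold Hs
  refine le_trans (le_of_eq ?_) h
  apply sum_congr rfl
  intro m _
  unfold tt
  congr 1
  simp only [mul_one, sum_const, nsmul_eq_mul]
  have : m.divisorsAntidiagonal.card = m.divisors.card := by
    rw [← Nat.map_div_right_divisors, card_map]
  rw [this]

lemma sum_tt_sq (D : ℕ) : ∑ m ∈ (Icc 1 D).filter Squarefree, tt m ^ 2 / m ≤ Hs D ^ 4 := by
  have h := conv_le D tt tt tt_nonneg tt_nonneg
  have h2 := sum_tt D
  have h3 : ∑ m ∈ (Icc 1 D).filter Squarefree, tt m ^ 2 / m ≤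
      ∑ m ∈ Icc 1 D, (∑ p ∈ m.divisorsAntidiagonal, tt p.1 * tt p.2) / m := by
    calc ∑ m ∈ (Icc 1 D).filter Squarefree, tt m ^ 2 / m ≤
        ∑ m ∈ (Icc 1 D).filter Squarefree,
          (∑ p ∈ m.divisorsAntidiagonal, tt p.1 * tt p.2) / m := by
          apply sum_le_sum
          intro m hm
          rw [mem_filter] at hm
          apply div_le_div_of_nonneg_right _ (Nat.cast_nonneg _)
          have h4 : ∀ p ∈ m.divisorsAntidiagonal, tt p.1 * tt p.2 = tt m := by
            intro p hp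
            rw [Nat.mem_divisorsAntidiagonal] at hp
            have h5 : Nat.Coprime p.1 p.2 := by
              apply Nat.coprime_of_squarefree_mul
              rw [hp.1]; exact hm.2
            unfold tt
            rw [← hp.1, h5.card_divisors_mul]
            push_cast; rfl
          rw [sum_congr rfl h4, sum_const, nsmul_eq_mul, sq]
          apply le_of_eq
          congr 1
          unfold tt
          rw [← Nat.map_div_right_divisors, card_map]
      _ ≤ _ := by
          apply sum_le_sum_of_subset_of_nonneg (filter_subset _ _)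
          intro m _ _
          have : 0 ≤ ∑ p ∈ m.divisorsAntidiagonal, tt p.1 * tt p.2 :=
            sum_nonneg (fun p _ => mul_nonneg (tt_nonneg _) (tt_nonneg _))
          positivity
  have h4 : 0 ≤ ∑ m ∈ Icc 1 D, tt m / m :=
    sum_nonneg (fun m _ => div_nonneg (tt_nonneg _) (Nat.cast_nonneg _))
  calc _ ≤ _ := h3
    _ ≤ _ := h
    _ ≤ Hs D ^ 2 * Hs D ^ 2 := mul_le_mul h2 h2 h4 (by positivity)
    _ = Hs D ^ 4 := by ring

/-- the fractions `h / d` in lowest terms -/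
lemma frac_le (d : ℕ) (hd : 0 < d) (g : ℝ → ℝ) (hg : ∀ x, 0 ≤ g x) :
    ∑ h ∈ Ico 1 d, g ((h : ℝ) / d) ≤ ∑ q ∈ d.divisors.filter (fun q => 2 ≤ q),
      ∑ a ∈ Un q, g ((a : ℝ) / q) := by
  rw [sum_sigma' (d.divisors.filter (fun q => 2 ≤ q)) (fun q => Un q)
    (fun q a => g ((a : ℝ) / q))]
  set i : ℕ → (Σ _ : ℕ, ℕ) := fun h => ⟨d / Nat.gcd h d, h / Nat.gcd h d⟩ with hi
  have hinj : Set.InjOn i (Ico 1 d) := by
    intro h hh h' hh' heq
    simp only [coe_Ico, Set.mem_Ico] at hh hh'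
    simp only [hi, Sigma.mk.injEq, heq_eq_eq] at heq
    have hg1 : 0 < Nat.gcd h d := Nat.gcd_pos_of_pos_left _ (by omega)
    have hg2 : 0 < Nat.gcd h' d := Nat.gcd_pos_of_pos_left _ (by omega)
    have h1 : Nat.gcd h d = Nat.gcd h' d := by
      have h2 : d / Nat.gcd h d * Nat.gcd h d = d := Nat.div_mul_cancel (Nat.gcd_dvd_right _ _)
      have h3 : d / Nat.gcd h' d * Nat.gcd h' d = d := Nat.div_mul_cancel (Nat.gcd_dvd_right _ _)
      rw [← heq.1] at h3
      have h4 : 0 < d / Nat.gcd h d := Nat.div_pos (Nat.le_of_dvd hd (Nat.gcd_dvd_right _ _)) hg1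
      exact Nat.eq_of_mul_eq_mul_left h4 (h2.trans h3.symm)
    have h2 : h / Nat.gcd h d * Nat.gcd h d = h := Nat.div_mul_cancel (Nat.gcd_dvd_left _ _)
    have h3 : h' / Nat.gcd h' d * Nat.gcd h' d = h' := Nat.div_mul_cancel (Nat.gcd_dvd_left _ _)
    rw [← h2, ← h3, heq.2, h1]
  have hval : ∀ h ∈ Ico 1 d, g ((h : ℝ) / d) = g (((i h).2 : ℝ) / (i h).1) := by
    intro h hh
    rw [mem_Ico] at hh
    have hg1 : 0 < Nat.gcd h d := Nat.gcd_pos_of_pos_left _ (by omega)
    have hg0 : ((Nat.gcd h d : ℕ) : ℝ) ≠ 0 := by positivity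
    simp only [hi]
    rw [Nat.cast_div (Nat.gcd_dvd_left _ _) hg0, Nat.cast_div (Nat.gcd_dvd_right _ _) hg0]
    congr 1
    field_simp
  rw [sum_congr rfl hval, ← sum_image (f := fun p : (Σ _ : ℕ, ℕ) => g ((p.2 : ℝ) / p.1)) hinj]
  apply sum_le_sum_of_subset_of_nonneg
  · intro p hp
    rw [mem_image] at hp
    obtain ⟨h, hh, rfl⟩ := hp
    rw [mem_Ico] at hh
    have hg1 : 0 < Nat.gcd h d := Nat.gcd_pos_of_pos_left _ (by omega)
    have hle : Nat.gcd h d ≤ h := Nat.le_of_dvd (by omega) (Nat.gcd_dvd_left _ _)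
    rw [mem_sigma, mem_filter, Nat.mem_divisors]
    simp only [hi, Un, mem_filter, mem_range]
    refine ⟨⟨⟨Nat.div_dvd_of_dvd (Nat.gcd_dvd_right _ _), hd.ne'⟩, ?_⟩, ?_, ?_⟩
    · rw [Nat.le_div_iff_mul_le hg1]
      obtain ⟨k, hk⟩ := Nat.gcd_dvd_right h d
      have h5 : 2 ≤ k := by
        by_contra hcon
        have h6 : k ≤ 1 := by omega
        have h7 : Nat.gcd h d * k ≤ Nat.gcd h d * 1 := Nat.mul_le_mul_left _ h6
        omega
      calc 2 * Nat.gcd h d ≤ k * Nat.gcd h d := Nat.mul_le_mul_right _ h5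
        _ = d := by rw [mul_comm]; exact hk.symm
    · exact Nat.div_lt_div_of_lt_of_dvd (Nat.gcd_dvd_right _ _) hh.2
    · exact Nat.coprime_div_gcd_div_gcd hg1
  · intros; exact hg _

/-- the main regrouping -/
lemma regroup (q R D : ℕ) (hR : 1 ≤ R) (hD : R ^ 2 ≤ D) (g : ℝ → ℝ) (hg : ∀ x, 0 ≤ g x) :
    ∑ d ∈ (PP q R).divisors, |wt q R d| / d * ∑ h ∈ Ico 1 d, g ((h : ℝ) / d) ≤
      Hs D ^ 4 * ∑ r ∈ (Icc 2 D).filter (fun r => r ∣ PP q R),
        tt r ^ 2 / r * ∑ a ∈ Un r, g ((a : ℝ) / r) := by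
  have hP0 : PP q R ≠ 0 := (PP_squarefree q R).ne_zero
  set P := PP q R with hP
  have hG : ∀ r, 0 ≤ ∑ a ∈ Un r, g ((a : ℝ) / r) := fun r => sum_nonneg (fun _ _ => hg _)
  set 𝓓 := P.divisors.filter (fun d => d ≤ D) with h𝓓
  have h1 : ∑ d ∈ P.divisors, |wt q R d| / d * ∑ h ∈ Ico 1 d, g ((h : ℝ) / d) ≤
      ∑ d ∈ 𝓓, tt d ^ 2 / d * ∑ r ∈ (Icc 2 D).filter (fun r => r ∣ P),
        if r ∣ d then ∑ a ∈ Un r, g ((a : ℝ) / r) else 0 := by
    rw [h𝓓, sum_filter]
    apply sum_le_sum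
    intro d hd
    have hdP := (Nat.mem_divisors.1 hd).1
    have hd0 : 0 < d := Nat.pos_of_mem_divisors hd
    have hS : 0 ≤ ∑ h ∈ Ico 1 d, g ((h : ℝ) / d) := sum_nonneg (fun _ _ => hg _)
    have h2 := abs_wt_le q R d hR hdP
    split_ifs with hdD
    · have h3 : |wt q R d| ≤ tt d ^ 2 := by
        refine h2.trans ?_
        split_ifs
        · exact le_rfl
        · positivity
      have h4 : ∑ h ∈ Ico 1 d, g ((h : ℝ) / d) ≤ ∑ r ∈ (Icc 2 D).filter (fun r => r ∣ P),
          if r ∣ d then ∑ a ∈ Un r, g ((a : ℝ) / r) else 0 := by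
        refine (frac_le d hd0 g hg).trans ?_
        rw [← sum_filter]
        apply sum_le_sum_of_subset_of_nonneg
        · intro r hr
          rw [mem_filter, Nat.mem_divisors] at hr
          rw [mem_filter, mem_filter, mem_Icc]
          have h5 := Nat.le_of_dvd hd0 hr.1.1
          exact ⟨⟨⟨hr.2, by omega⟩, hr.1.1.trans hdP⟩, hr.1.1⟩
        · intros; exact hG _
      exact mul_le_mul (div_le_div_of_nonneg_right h3 (Nat.cast_nonneg _)) h4 hS (by positivity)
    · have h3 : |wt q R d| = 0 := by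
        apply le_antisymm _ (abs_nonneg _)
        refine h2.trans (le_of_eq ?_)
        rw [if_neg]
        omega
      rw [h3]
      simp
  refine h1.trans ?_
  have h2 : ∀ G : ℕ → ℝ, ∑ d ∈ 𝓓, tt d ^ 2 / d * ∑ r ∈ (Icc 2 D).filter (fun r => r ∣ P),
        (if r ∣ d then G r else 0) =
      ∑ r ∈ (Icc 2 D).filter (fun r => r ∣ P),
        (∑ d ∈ 𝓓.filter (fun d => r ∣ d), tt d ^ 2 / d) * G r := by
    intro G
    simp_rw [mul_sum]
    rw [sum_comm]
    apply sum_congr rfl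
    intro r _
    rw [sum_mul, sum_filter (fun d => r ∣ d)]
    apply sum_congr rfl
    intro d _
    split_ifs
    · rfl
    · simp
  rw [h2 (fun r => ∑ a ∈ Un r, g ((a : ℝ) / r)), mul_sum]
  apply sum_le_sum
  intro r hr
  rw [mem_filter, mem_Icc] at hr
  rw [← mul_assoc]
  apply mul_le_mul_of_nonneg_right _ (hG r)
  have hr0 : 0 < r := by omega
  -- d = r * m
  have h3 : ∑ d ∈ 𝓓.filter (fun d => r ∣ d), tt d ^ 2 / d ≤
      ∑ m ∈ (Icc 1 D).filter Squarefree, (tt r ^ 2 / r) * (tt m ^ 2 / m) := by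
    have hval : ∀ d ∈ 𝓓.filter (fun d => r ∣ d), tt d ^ 2 / d =
        (tt r ^ 2 / r) * (tt (d / r) ^ 2 / ((d / r : ℕ) : ℝ)) := by
      intro d hd
      rw [mem_filter, h𝓓, mem_filter, Nat.mem_divisors] at hd
      obtain ⟨⟨⟨hdP, _⟩, hdD⟩, hrd⟩ := hd
      obtain ⟨m, rfl⟩ := hrd
      have hsq : Squarefree (r * m) := (PP_squarefree q R).squarefree_of_dvd hdP
      have hc : Nat.Coprime r m := Nat.coprime_of_squarefree_mul hsq
      rw [Nat.mul_div_cancel_left _ hr0]
      have h5 : tt (r * m) = tt r * tt m := by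
        unfold tt; rw [hc.card_divisors_mul]; push_cast; rfl
      rw [h5, div_mul_div_comm]
      push_cast
      rw [mul_pow]
    have hinj : Set.InjOn (fun d : ℕ => d / r) (𝓓.filter (fun d => r ∣ d)) := by
      intro d hd d' hd' h
      rw [mem_coe, mem_filter] at hd hd'
      simp only at h
      rw [← Nat.div_mul_cancel hd.2, ← Nat.div_mul_cancel hd'.2, h]
    rw [sum_congr rfl hval,
      ← sum_image (f := fun m : ℕ => (tt r ^ 2 / r) * (tt m ^ 2 / (m : ℝ))) hinj]
    apply sum_le_sum_of_subset_of_nonneg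
    · intro m hm
      rw [mem_image] at hm
      obtain ⟨d, hd, rfl⟩ := hm
      rw [mem_filter, h𝓓, mem_filter, Nat.mem_divisors] at hd
      obtain ⟨⟨⟨hdP, _⟩, hdD⟩, hrd⟩ := hd
      obtain ⟨m, rfl⟩ := hrd
      have hsq : Squarefree (r * m) := (PP_squarefree q R).squarefree_of_dvd hdP
      rw [Nat.mul_div_cancel_left _ hr0, mem_filter, mem_Icc]
      have hm0 : 0 < m := Nat.pos_of_ne_zero (by rintro rfl; simp at hsq)
      have h6 : m ≤ r * m := Nat.le_mul_of_pos_left _ hr0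
      exact ⟨⟨hm0, by omega⟩, hsq.squarefree_of_dvd (dvd_mul_left _ _)⟩
    · intro m _ _
      positivity
  refine h3.trans ?_
  rw [← mul_sum, mul_comm]
  exact mul_le_mul_of_nonneg_right (sum_tt_sq D) (by positivity)

end Pool.Agent.R456.RP
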